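import Pool.Agent.H73.ZO.Qc
import Pool.Agent.H73.P2.Ch
import Pool.Agent.H73.P2.Ev
import Pool.Agent.H24.PD.Main

/-!
The relative theorem with the conditions at all places above `Sg` (project MP_78d38b, ZeroOneLaw, no row;
modification of `Pool/Agent/H73/CY/Rc.lean`).
-/

set_option autoImplicit false
set_option linter.unusedSectionVars false
open scoped Classical

open WithZero NumberField IsDedekindDomain H38RT
open H38T1 (SC sc scu rep eo la si Pri OddP tp unif)
open H76PP H73P2 H36CY H73CY

namespace H73ZO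

section Base

variable {K k : Type} [Field K] [NumberField K] [Field k] [NumberField k] [Algebra K k]

theorem relS_base (h1 : Module.finrank K k = 1) {Sg S : Finset (HeightOneSpectrum (𝓞 K))} {a b : K}
    (hT : ∀ (L : Type) [Field L] [NumberField L] [Algebra K L] (θ : L), Cub K L a b θ →
      RelST K K L Sg S a b θ)
    (L : Type) [Field L] [NumberField L] [Algebra k L] (θ : L)
    (h : Cub k L (algebraMap K k a) (algebraMap K k b) θ) : RelST K k L Sg S a b θ := by
  have hs := bs_surj h1
  have hi : Function.Injective (algebraMap K k) := (algebraMap K k).injective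
  letI : Algebra K L := ((algebraMap k L).comp (algebraMap K k)).toAlgebra
  have hal : ∀ x : K, algebraMap K L x = algebraMap k L (algebraMap K k x) := fun _ => rfl
  have hcub : Cub K L a b θ := by
    refine ⟨?_, ?_, ?_⟩
    · rw [hal, hal]
      exact h.root
    · intro c₀ c₁ c₂ hc
      rw [hal, hal, hal] at hc
      obtain ⟨e0, e1, e2⟩ := h.li _ _ _ hc
      exact ⟨(map_eq_zero _).1 e0, (map_eq_zero _).1 e1, (map_eq_zero _).1 e2⟩
    · intro x
      obtain ⟨c₀, c₁, c₂, hx⟩ := h.sp x
      obtain ⟨d₀, rfl⟩ := hs c₀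
      obtain ⟨d₁, rfl⟩ := hs c₁
      obtain ⟨d₂, rfl⟩ := hs c₂
      exact ⟨d₀, d₁, d₂, hx⟩
  intro d hR
  choose d₀ hd₀ using fun i => hs (d i)
  obtain rfl : d = fun i => algebraMap K k (d₀ i) := funext fun i => (hd₀ i).symm
  have hev : ev θ d₀ = ev θ (fun i => algebraMap K k (d₀ i)) := rfl
  let e : K ≃+* k := RingEquiv.ofBijective (algebraMap K k) ⟨hi, hs⟩
  have hRel : RelS K K L Sg S a b θ d₀ := by
    refine ⟨?_, ?_, ?_, ?_, ?_, ?_⟩
    · rw [hev]
      exact hR.ne
    · rw [Te_norm hcub]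
      have h2 := hR.sq
      rw [Te_norm h, Te_nf_map] at h2
      obtain ⟨r, hr⟩ := h2
      obtain ⟨r₀, rfl⟩ := hs r
      refine ⟨r₀, hi ?_⟩
      rw [hr, map_mul]
    · intro w hwg hw
      rw [hev]
      have h3 : dn K (dn K w) = dn K (dn k w) := by
        apply HeightOneSpectrum.ext
        ext x
        have h4 : algebraMap (𝓞 K) (𝓞 L) (algebraMap (𝓞 K) (𝓞 K) x) =
            algebraMap (𝓞 k) (𝓞 L) (algebraMap (𝓞 K) (𝓞 k) x) := by
          apply RingOfIntegers.coe_injective
          rfl
        change algebraMap (𝓞 K) (𝓞 L) (algebraMap (𝓞 K) (𝓞 K) x) ∈ w.asIdeal ↔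
          algebraMap (𝓞 k) (𝓞 L) (algebraMap (𝓞 K) (𝓞 k) x) ∈ w.asIdeal
        rw [h4]
      rw [h3] at hwg hw
      exact hR.even w hwg hw
    · intro v hv j hj
      let j' : k →+* v.adicCompletion K := j.comp (e.symm : k →+* K)
      have hj' : ∀ x : K, j' (algebraMap K k x) = j x := by
        intro x
        change j (e.symm (e x)) = j x
        rw [RingEquiv.symm_apply_apply]
      refine bs_LC (k := k) j j' hj' ?_
      apply hR.loc v hv j'
      intro x
      rw [hj']
      exact hj x
    · intro v hv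
      let j' : k →+* v.adicCompletion K :=
        (algebraMap K (v.adicCompletion K)).comp (e.symm : k →+* K)
      have hj' : ∀ x : K, j' (algebraMap K k x) = algebraMap K (v.adicCompletion K) x := by
        intro x
        change algebraMap K (v.adicCompletion K) (e.symm (e x)) = algebraMap K (v.adicCompletion K) x
        rw [RingEquiv.symm_apply_apply]
      obtain ⟨u, φ, hu, hφ⟩ := exists_mapS v j' hj'
      have hvd : dn K v = v := by
        apply HeightOneSpectrum.ext
        ext x
        rw [mem_dn]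
        exact Iff.rfl
      exact bs_LC (k := k) _ j' hj' (LC_map φ hφ (hR.sg u (by rw [hu, ← hvd]; exact hv)))
    · intro s
      let s' : k →+* ℝ := s.comp (e.symm : k →+* K)
      have hs' : ∀ x : K, s' (algebraMap K k x) = s x := by
        intro x
        change s (e.symm (e x)) = s x
        rw [RingEquiv.symm_apply_apply]
      exact bs_LC (k := k) s s' hs' (hR.real s')
  have h5 := hT L θ hcub d₀ hRel
  rw [hev] at h5
  exact h5

end Base

theorem chainS {K N : Type} [Field K] [NumberField K] [Field N] [NumberField N] [Algebra K N]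
    [IsGalois K N] {r : ℕ} (hr : Module.finrank K N = 2 ^ r) {Sg S : Finset (HeightOneSpectrum (𝓞 K))}
    {a b : K}
    (h2S : ∀ v : HeightOneSpectrum (𝓞 K), v.valuation K 2 < 1 → v ∈ Sg)
    (hd : 4 * a ^ 3 + 27 * b ^ 2 ≠ 0)
    (hsplit : ∀ v ∈ S, ∃ ι : N →+* v.adicCompletion K, ∀ x : K,
      ι (algebraMap K N x) = algebraMap K (v.adicCompletion K) x)
    (hreal : ∀ s : K →+* ℝ, 0 < s (4 * a ^ 3 + 27 * b ^ 2) ∨ ∃ s' : N →+* ℝ, ∀ x : K,
      s' (algebraMap K N x) = s x)
    (hram : ∀ V : HeightOneSpectrum (𝓞 N), dn K V ∉ Sg → dn K V ∉ S → Ram K V →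
      NoRootAt (dn K V) a b)
    (hdesc : ∀ v ∈ Sg, DescAt K N v a b)
    (hT : ∀ (L : Type) [Field L] [NumberField L] [Algebra K L] (θ : L), Cub K L a b θ →
      RelST K K L Sg S a b θ) (n : ℕ) :
    ∀ (k : Type) [Field k] [NumberField k] [Algebra K k] [Algebra k N] [IsScalarTower K k N],
      Module.finrank K k = n →
      (∀ u : HeightOneSpectrum (𝓞 k), NoRootAt (dn K u) a b →
        NoRootAt u (algebraMap K k a) (algebraMap K k b)) ∧
      ∀ (L : Type) [Field L] [NumberField L] [Algebra k L] (θ : L),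
        Cub k L (algebraMap K k a) (algebraMap K k b) θ → RelST K k L Sg S a b θ := by
  have _ : FiniteDimensional K N := Module.Finite.of_restrictScalars_finite ℚ K N
  induction n using Nat.strong_induction_on with
  | _ n ih =>
    intro k _ _ _ _ _ hn
    by_cases h1 : Module.finrank K k = 1
    · exact ⟨fun u hu => nr_base h1 u hu, fun L _ _ _ θ h => relS_base h1 hT L θ h⟩
    · obtain ⟨k₀, hk₀⟩ := exists_half (K := K) (N := N) (k' := k) hr h1
      have _ : FiniteDimensional K k := Module.Finite.of_restrictScalars_finite ℚ K k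
      have _ : NumberField k₀ := NumberField.of_module_finite K k₀
      have _ : IsScalarTower k₀ k N := inferInstance
      have _ : IsScalarTower K k₀ N := IsScalarTower.of_algebraMap_eq fun x => by
        rw [IsScalarTower.algebraMap_apply K k N, IsScalarTower.algebraMap_apply K k₀ k]
        rfl
      have hmul := Module.finrank_mul_finrank K k₀ k
      rw [hk₀] at hmul
      have hpos : 0 < Module.finrank K k₀ := Module.finrank_pos
      obtain ⟨ih1, ih2⟩ := ih (Module.finrank K k₀) (by omega) k₀ rfl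
      have hab : ∀ x : K, algebraMap K k x = algebraMap k₀ k (algebraMap K k₀ x) :=
        IsScalarTower.algebraMap_apply K k₀ k
      refine ⟨fun u hu => ?_, fun L _ _ _ θ h =>
        quad_stepS (N := N) hk₀ h2S hd hsplit hreal hram hdesc ih1 ih2 L θ h⟩
      have h2 : dn K (dn k₀ u) = dn K u := dn_dn u
      rw [hab, hab]
      refine NoRootAt.up hk₀ u (ih1 _ ?_)
      rw [h2]
      exact hu

section

variable {K N : Type} [Field K] [NumberField K] [Field N] [NumberField N] [Algebra K N]
  [IsGalois K N]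

/-- The Selmer group over a field between `K` and `N`. -/
theorem selS_mid (hos : OrdSub) {r : ℕ} (hr : Module.finrank K N = 2 ^ r)
    {Sg S : Finset (HeightOneSpectrum (𝓞 K))} {a b : K}
    (h2S : ∀ v : HeightOneSpectrum (𝓞 K), v.valuation K 2 < 1 → v ∈ Sg)
    (hd : 4 * a ^ 3 + 27 * b ^ 2 ≠ 0)
    (hnice : ∀ v : HeightOneSpectrum (𝓞 K), v ∉ Sg → v ∉ S → NiceAt v a b)
    (hsplit : ∀ v ∈ S, ∃ ι : N →+* v.adicCompletion K, ∀ x : K,
      ι (algebraMap K N x) = algebraMap K (v.adicCompletion K) x)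
    (hreal : ∀ s : K →+* ℝ, 0 < s (4 * a ^ 3 + 27 * b ^ 2) ∨ ∃ s' : N →+* ℝ, ∀ x : K,
      s' (algebraMap K N x) = s x)
    (hram : ∀ V : HeightOneSpectrum (𝓞 N), dn K V ∉ Sg → dn K V ∉ S → Ram K V →
      NoRootAt (dn K V) a b)
    (hdesc : ∀ v ∈ Sg, DescAt K N v a b)
    (hT : ∀ (L : Type) [Field L] [NumberField L] [Algebra K L] (θ : L), Cub K L a b θ →
      RelST K K L Sg S a b θ)
    (k : Type) [Field k] [NumberField k] [Algebra K k] [Algebra k N] [IsScalarTower K k N]
    (L : Type) [Field L] [NumberField L] [Algebra k L] (θ : L)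
    (h : Cub k L (algebraMap K k a) (algebraMap K k b) θ) :
    SelTriv k L (algebraMap K k a) (algebraMap K k b) θ := by
  obtain ⟨hNR, hRT⟩ := chainS hr h2S hd hsplit hreal hram hdesc hT _ k rfl
  intro d hd0 hsq hfin hre
  refine hRT L θ h d ⟨hd0, hsq, ?_, ?_, fun u _ => hfin u, hre⟩
  · intro w hwg hw
    obtain ⟨V, hV⟩ := exists_above (L := N) (dn k w)
    have hKV : dn K V = dn K (dn k w) := by
      rw [← hV]
      exact (dn_dn V).symm
    by_cases hr' : Ram K V
    · have h1 := hram V (by rw [hKV]; exact hwg) (by rw [hKV]; exact hw) hr'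
      rw [hKV] at h1
      exact even_unique h w (hNR _ h1) hd0 hsq
    · obtain ⟨-, h1⟩ := unram_mid (k := k) hr'
      rw [hV, hKV] at h1
      exact even_nice hos h w (NiceAt.up h1 (hnice _ hwg hw)) hd0 (hfin _)
  · intro v _ j hj
    exact LC_of_places hfin v j hj

/-- The relative theorem. -/
theorem relS_main (hos : OrdSub) {r : ℕ} (hr : Module.finrank K N = 2 ^ r)
    {Sg S : Finset (HeightOneSpectrum (𝓞 K))} {a b : K}
    (h2S : ∀ v : HeightOneSpectrum (𝓞 K), v.valuation K 2 < 1 → v ∈ Sg)
    (hd : 4 * a ^ 3 + 27 * b ^ 2 ≠ 0) (hirr : ∀ t : K, t ^ 3 + a * t + b ≠ 0)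
    (hnice : ∀ v : HeightOneSpectrum (𝓞 K), v ∉ Sg → v ∉ S → NiceAt v a b)
    (hsplit : ∀ v ∈ S, ∃ ι : N →+* v.adicCompletion K, ∀ x : K,
      ι (algebraMap K N x) = algebraMap K (v.adicCompletion K) x)
    (hreal : ∀ s : K →+* ℝ, 0 < s (4 * a ^ 3 + 27 * b ^ 2) ∨ ∃ s' : N →+* ℝ, ∀ x : K,
      s' (algebraMap K N x) = s x)
    (hram : ∀ V : HeightOneSpectrum (𝓞 N), dn K V ∉ Sg → dn K V ∉ S → Ram K V →
      NoRootAt (dn K V) a b)
    (hdesc : ∀ v ∈ Sg, DescAt K N v a b)
    (hT : ∀ (L : Type) [Field L] [NumberField L] [Algebra K L] (θ : L), Cub K L a b θ →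
      RelST K K L Sg S a b θ)
    (M : IntermediateField K N) [NumberField M] :
    Finite (⟨0, 0, 0, algebraMap K M a, algebraMap K M b⟩ : WeierstrassCurve M).toAffine.Point ∧
      Pool.Agent.H10.Sha2Trivial M
        (⟨0, 0, 0, algebraMap K M a, algebraMap K M b⟩ : WeierstrassCurve M) := by
  have _ : FiniteDimensional K N := Module.Finite.of_restrictScalars_finite ℚ K N
  obtain ⟨L, _, _, _, θ, hL⟩ := H24PD.exists_cub (K := M)
    (noroot (K := K) (N := N) (k := M) hr hirr)
  exact H24PD.descent hL (selS_mid hos hr h2S hd hnice hsplit hreal hram hdesc hT M L θ hL)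

end

/-- Over `K` itself the two forms of the relaxed Selmer condition agree. -/
theorem relST_of {K : Type} [Field K] [NumberField K] {Sg S : Finset (HeightOneSpectrum (𝓞 K))}
    {a b : K} {L : Type} [Field L] [NumberField L] [Algebra K L] {θ : L}
    (h : H73P2.RelT K K L (Sg ∪ S) a b θ) : RelST K K L Sg S a b θ := by
  intro d hd
  refine h d ⟨hd.ne, hd.sq, ?_, ?_, hd.real⟩
  · intro w hw
    rw [Finset.mem_union, not_or] at hw
    exact hd.even w hw.1 hw.2
  · intro v hv
    rcases Finset.mem_union.1 hv with hv | hv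
    · intro j hj
      have h1 : j = algebraMap K (v.adicCompletion K) := RingHom.ext fun x => hj x
      rw [h1]
      refine hd.sg v ?_
      have hvd : dn K v = v := by
        apply HeightOneSpectrum.ext
        ext x
        rw [mem_dn]
        exact Iff.rfl
      rw [hvd]
      exact hv
    · exact hd.loc v hv

end H73ZO
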