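import Pool.Agent.H73.ZO.Df

/-!
The quadratic step with the conditions at all places above `Sg` (project MP_78d38b, ZeroOneLaw, no row;
modification of `Pool/Agent/H73/CY/Qc.lean`).
-/

set_option autoImplicit false
set_option linter.unusedSectionVars false
open scoped Classical

open WithZero NumberField IsDedekindDomain H38RT
open H38T1 (SC sc scu rep eo la si Pri OddP tp unif)
open H76PP H73P2 H36CY H73CY

namespace H73ZO

section Down

variable {K k L k' L' N : Type} [Field K] [NumberField K] [Field k] [NumberField k] [Field L]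
  [NumberField L] [Field k'] [NumberField k'] [Field L'] [NumberField L'] [Field N] [NumberField N]
  [Algebra K k] [Algebra K k'] [Algebra k k'] [Algebra k L] [Algebra L L'] [Algebra k' L']
  [Algebra k L'] [IsScalarTower K k k'] [IsScalarTower k L L'] [IsScalarTower k k' L']
  [Algebra K N] [Algebra k N] [Algebra k' N] [IsScalarTower K k N] [IsScalarTower K k' N]
  [IsScalarTower k k' N] [IsGalois K N]

theorem relS_down {Sg S : Finset (HeightOneSpectrum (𝓞 K))} {a b : K}
    (h2 : ∀ v : HeightOneSpectrum (𝓞 K), v.valuation K 2 < 1 → v ∈ Sg)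
    (hsplit : ∀ v ∈ S, ∃ ι : N →+* v.adicCompletion K, ∀ x : K,
      ι (algebraMap K N x) = algebraMap K (v.adicCompletion K) x)
    (hreal : ∀ s : K →+* ℝ, 0 < s (4 * a ^ 3 + 27 * b ^ 2) ∨ ∃ s' : N →+* ℝ, ∀ x : K,
      s' (algebraMap K N x) = s x)
    (hram : ∀ V : HeightOneSpectrum (𝓞 N), dn K V ∉ Sg → dn K V ∉ S → Ram K V →
      NoRootAt (dn K V) a b)
    (hdesc : ∀ v ∈ Sg, DescAt K N v a b)
    (hNR : ∀ u : HeightOneSpectrum (𝓞 k), NoRootAt (dn K u) a b →
      NoRootAt u (algebraMap K k a) (algebraMap K k b))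
    {θ : L} {θ' : L'} (Q : QS k L k' L' (algebraMap K k a) (algebraMap K k b) θ θ')
    (f2 : Module.finrank L L' = 2) {e : Fin 3 → k} (hne : ev θ e ≠ 0)
    (hsq : IsSquare (Algebra.norm k (ev θ e)))
    (hev : ∀ w' : HeightOneSpectrum (𝓞 L'), dn K (dn k' w') ∉ Sg → dn K (dn k' w') ∉ S →
      eo w' (sc (algebraMap L L' (ev θ e))) = 0)
    (hloc : ∀ v ∈ S, LCv K v a b (fun i => algebraMap k k' (e i)))
    (hsg : ∀ u : HeightOneSpectrum (𝓞 k'), dn K u ∈ Sg →
      LC (algebraMap k' (u.adicCompletion k')) (algebraMap K k' a) (algebraMap K k' b)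
        (fun i => algebraMap k k' (e i)))
    (hre : ∀ s : k' →+* ℝ, LC s (algebraMap K k' a) (algebraMap K k' b)
      (fun i => algebraMap k k' (e i))) : RelS K k L Sg S a b θ e := by
  have hab : ∀ x : K, algebraMap K k' x = algebraMap k k' (algebraMap K k x) :=
    IsScalarTower.algebraMap_apply K k k'
  refine ⟨hne, hsq, ?_, ?_, ?_, ?_⟩
  · intro w hwg hw
    obtain ⟨V, hV⟩ := exists_above (L := N) (dn k w)
    have hKV : dn K V = dn K (dn k w) := by
      rw [← hV]
      exact (dn_dn V).symm
    have hw2 : w.valuation L 2 = 1 := val2_up (K := k) (val2_up (K := K) (odd_of h2 hwg))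
    by_cases hr : Ram K V
    · have h1 := hram V (by rw [hKV]; exact hwg) (by rw [hKV]; exact hw) hr
      rw [hKV] at h1
      exact even_unique Q.cub w (hNR _ h1) hne hsq
    · obtain ⟨h1, -⟩ := unram_mid (k := k) hr
      obtain ⟨D, ρ, hρ, hρk, hD⟩ := exists_gen (k' := k') Q.two h1
      rw [hV] at hD
      refine even_unram Q f2 w hw2 hρ hρk hD hne fun w' hw' => hev w' ?_ ?_
      · rw [← dn_sq (k := k) (L := L), hw']
        exact hwg
      · rw [← dn_sq (k := k) (L := L), hw']
        exact hw
  · intro v hv j hj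
    obtain ⟨j', hj'⟩ := ext_of (k' := k') (algebraMap K (v.adicCompletion K)) (hsplit v hv) j hj
    have h1 := hloc v hv j' (fun x => by rw [hab, hj', hj])
    unfold LC at h1 ⊢
    simp only [hab, hj'] at h1
    exact h1
  · intro u hu
    refine hdesc (dn K u) hu k k' Q.two e ?_ ?_ (fun u' hu' => hsg u' (by rw [hu']; exact hu)) u rfl
    · rw [← Te_norm Q.cub e, Ne, Algebra.norm_eq_zero_iff]
      exact hne
    · rw [← Te_norm Q.cub e]
      exact hsq
  · intro s
    rcases hreal (s.comp (algebraMap K k)) with h | h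
    · refine LC_real s ?_ ?_
      · rw [RingHom.comp_apply] at h
        simpa only [map_add, map_mul, map_pow, map_ofNat] using h
      · have h1 := Te_norm Q.cub e
        rw [← h1]
        obtain ⟨c, hc⟩ := hsq
        have h2 : Algebra.norm k (ev θ e) ≠ 0 := by
          rw [Ne, Algebra.norm_eq_zero_iff]
          exact hne
        rw [hc] at h2 ⊢
        rw [map_mul]
        have h3 : s c ≠ 0 := (map_ne_zero s).2 (left_ne_zero_of_mul h2)
        exact mul_self_pos.2 h3
    · obtain ⟨s', hs'⟩ := ext_of (k' := k') (s.comp (algebraMap K k)) h s (fun x => rfl)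
      have h1 := hre s'
      unfold LC at h1 ⊢
      simp only [hab, hs'] at h1
      exact h1

end Down

section Step

variable {K k k' N : Type} [Field K] [NumberField K] [Field k] [NumberField k] [Field k']
  [NumberField k'] [Field N] [NumberField N] [Algebra K k] [Algebra K k'] [Algebra k k']
  [IsScalarTower K k k'] [Algebra K N] [Algebra k N] [Algebra k' N] [IsScalarTower K k N]
  [IsScalarTower K k' N] [IsScalarTower k k' N] [IsGalois K N]

theorem quad_stepS (two : Module.finrank k k' = 2) {Sg S : Finset (HeightOneSpectrum (𝓞 K))}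
    {a b : K}
    (h2 : ∀ v : HeightOneSpectrum (𝓞 K), v.valuation K 2 < 1 → v ∈ Sg)
    (hd : 4 * a ^ 3 + 27 * b ^ 2 ≠ 0)
    (hsplit : ∀ v ∈ S, ∃ ι : N →+* v.adicCompletion K, ∀ x : K,
      ι (algebraMap K N x) = algebraMap K (v.adicCompletion K) x)
    (hreal : ∀ s : K →+* ℝ, 0 < s (4 * a ^ 3 + 27 * b ^ 2) ∨ ∃ s' : N →+* ℝ, ∀ x : K,
      s' (algebraMap K N x) = s x)
    (hram : ∀ V : HeightOneSpectrum (𝓞 N), dn K V ∉ Sg → dn K V ∉ S → Ram K V →
      NoRootAt (dn K V) a b)
    (hdesc : ∀ v ∈ Sg, DescAt K N v a b)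
    (hNR : ∀ u : HeightOneSpectrum (𝓞 k), NoRootAt (dn K u) a b →
      NoRootAt u (algebraMap K k a) (algebraMap K k b))
    (hT : ∀ (L : Type) [Field L] [NumberField L] [Algebra k L] (θ : L),
      Cub k L (algebraMap K k a) (algebraMap K k b) θ → RelST K k L Sg S a b θ)
    (L' : Type) [Field L'] [NumberField L'] [Algebra k' L'] (θ' : L')
    (h' : Cub k' L' (algebraMap K k' a) (algebraMap K k' b) θ') : RelST K k' L' Sg S a b θ' := by
  intro d hR
  have hab : ∀ x : K, algebraMap K k' x = algebraMap k k' (algebraMap K k x) :=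
    IsScalarTower.algebraMap_apply K k k'
  let _ : Algebra k L' := ((algebraMap k' L').comp (algebraMap k k')).toAlgebra
  have _ : IsScalarTower k k' L' := IsScalarTower.of_algebraMap_eq fun _ => rfl
  have h'' : Cub k' L' (algebraMap k k' (algebraMap K k a)) (algebraMap k k' (algebraMap K k b)) θ' := by
    rw [← hab, ← hab]
    exact h'
  obtain ⟨L, _, _, _, _, _, θ, hc, hθ⟩ := exists_sub h''
  have Q : QS k L k' L' (algebraMap K k a) (algebraMap K k b) θ θ' := ⟨two, hc, h'', hθ⟩
  have f2 := Q.fin2
  obtain ⟨τ, σ, hσ, hτ⟩ := Q.sigma f2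
  set x : L' := ev θ' d with hx
  have hx0 : x ≠ 0 := hR.ne
  -- the coordinates of an element of `L`
  have hco : ∀ y : L, ev θ (fun i => hc.co i y) = y := fun y => (hc.eq_co y).symm
  have hn0 : Algebra.norm L x ≠ 0 := by
    rw [Ne, Algebra.norm_eq_zero_iff]
    exact hx0
  -- first descent
  have hsq1 : IsSquare (Algebra.norm L x) := by
    set e : Fin 3 → k := fun i => hc.co i (Algebra.norm L x) with he
    have he1 : ev θ e = Algebra.norm L x := hco _
    have he2 := hτ d e he1
    rw [← he1]
    refine hT L θ hc e (relS_down h2 hsplit hreal hram hdesc hNR Q f2 ?_ ?_ ?_ ?_ ?_ ?_)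
    · rw [he1]
      exact hn0
    · rw [he1]
      exact Q.norm_sq f2 hR.sq
    · intro w' hwg hw'
      rw [he1, hσ, H38T1.sc_mul hx0 ((map_ne_zero σ).2 hx0), H38T1.eo_add, hR.even w' hwg hw',
        zero_add]
      obtain ⟨W', h1, h3⟩ := eo_conj σ w'
      rw [h3 x hx0]
      apply hR.even
      · rw [← dn_sq (K := K) (k := k) (k' := k') (L := L) W', h1,
          dn_sq (K := K) (k := k) (k' := k') (L := L) w']
        exact hwg
      · rw [← dn_sq (K := K) (k := k) (k' := k') (L := L) W', h1,
          dn_sq (K := K) (k := k) (k' := k') (L := L) w']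
        exact hw'
    · intro v hv
      rw [he2, ← hab, ← hab]
      refine lcv_mul hd v (hR.loc v hv) ?_
      intro j hj
      have h1 := hR.loc v hv (j.comp (τ : k' →+* k')) (fun y => by
        change j (τ (algebraMap K k' y)) = _
        rw [hab, τ.commutes, ← hab, hj])
      unfold LC at h1 ⊢
      simp only [RingHom.comp_apply, RingHom.coe_coe, hab, τ.commutes] at h1 ⊢
      exact h1
    · intro u hu
      rw [he2, ← hab, ← hab]
      refine lct_mul hd u (hR.sg u hu) ?_
      rw [hab, hab]
      refine sg_conj τ (fun u hu => ?_) u hu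
      rw [← hab, ← hab]
      exact hR.sg u hu
    · intro s
      rw [he2, ← hab, ← hab]
      refine lcr_mul hd s (hR.real s) ?_
      have h1 := hR.real (s.comp (τ : k' →+* k'))
      unfold LC at h1 ⊢
      simp only [RingHom.comp_apply, RingHom.coe_coe, hab, τ.commutes] at h1 ⊢
      exact h1
  -- second descent
  obtain ⟨t, z, ht, hz, hxt, hNt⟩ := Q.core f2 hx0 hR.sq hsq1
  have hsq2 : IsSquare t := by
    set e : Fin 3 → k := fun i => hc.co i t with he
    have he1 : ev θ e = t := hco _
    -- the coordinates of the inverse of `z`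
    set u : Fin 3 → k' := fun i => h''.co i z⁻¹ with hu
    have hu1 : ev θ' u = z⁻¹ := (h''.eq_co z⁻¹).symm
    have he2 : (fun i => algebraMap k k' (e i)) = m3 (algebraMap k k' (algebraMap K k a))
        (algebraMap k k' (algebraMap K k b)) d (m3 (algebraMap k k' (algebraMap K k a))
        (algebraMap k k' (algebraMap K k b)) u u) := by
      have h1 : ev θ' (fun i => algebraMap k k' (e i)) = ev θ' (m3 (algebraMap k k' (algebraMap K k a))
        (algebraMap k k' (algebraMap K k b)) d (m3 (algebraMap k k' (algebraMap K k a))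
        (algebraMap k k' (algebraMap K k b)) u u)) := by
        rw [← Q.coord, he1, ← Te_ev_mul h'', ← Te_ev_mul h'', hu1, ← hx, hxt]
        field_simp
      funext i
      have h2 := h''.co_mk (fun i => algebraMap k k' (e i)) i
      have h3 := h''.co_mk (m3 (algebraMap k k' (algebraMap K k a))
        (algebraMap k k' (algebraMap K k b)) d (m3 (algebraMap k k' (algebraMap K k a))
        (algebraMap k k' (algebraMap K k b)) u u)) i
      unfold ev at h1
      rw [← h2, ← h3, h1]
    rw [← he1]
    refine hT L θ hc e (relS_down h2 hsplit hreal hram hdesc hNR Q f2 ?_ ?_ ?_ ?_ ?_ ?_)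
    · rw [he1]
      exact ht
    · rw [he1]
      exact hNt
    · intro w' hwg hw'
      rw [he1]
      have h1 := hR.even w' hwg hw'
      have htL : algebraMap L L' t ≠ 0 := (map_ne_zero _).2 ht
      rw [← hx, hxt, H38T1.sc_mul htL (pow_ne_zero 2 hz)] at h1
      have h2 : sc (z ^ 2) = (0 : SC L') := (H38T1.sc_eq_zero (pow_ne_zero 2 hz)).2 ⟨z, pow_two z⟩
      rwa [h2, add_zero] at h1
    · intro v hv j hj
      have h1 := LC_sq j u (hR.loc v hv j hj)
      rw [hab, hab] at h1 ⊢
      rw [he2]
      exact h1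
    · intro w hw
      have h1 := LC_sq (algebraMap k' (w.adicCompletion k')) u (hR.sg w hw)
      rw [hab, hab] at h1 ⊢
      rw [he2]
      exact h1
    · intro s
      have h1 := LC_sq s u (hR.real s)
      rw [hab, hab] at h1 ⊢
      rw [he2]
      exact h1
  rw [hxt]
  obtain ⟨c, rfl⟩ := hsq2
  exact ⟨algebraMap L L' c * z, by rw [map_mul]; ring⟩

end Step

end H73ZO
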