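import Pool.Agent.H73.CY.Rc

/-!
Definitions and transport of local conditions for the relative theorem with local conditions at all
places above a finite set `Sg` of primes (project MP_78d38b, ZeroOneLaw; no row).
-/

set_option autoImplicit false
set_option linter.unusedSectionVars false
open scoped Classical

open WithZero NumberField IsDedekindDomain H38RT
open H38T1 (SC sc scu rep eo la si Pri OddP tp unif)
open H76PP H73P2 H36CY H73CY

namespace H73ZO

section Rel

variable (K k L : Type) [Field K] [NumberField K] [Field k] [NumberField k] [Field L] [NumberField L]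
  [Algebra K k] [Algebra k L]

/-- The relaxed Selmer condition: square norm, even orders at the primes away from `Sg` and `S`, the
local conditions at the places of `S` (for all embeddings), at all places above `Sg` and at the real
places. -/
structure RelS (Sg S : Finset (HeightOneSpectrum (𝓞 K))) (a b : K) (θ : L) (d : Fin 3 → k) :
    Prop where
  ne : ev θ d ≠ 0
  sq : IsSquare (Algebra.norm k (ev θ d))
  even : ∀ w : HeightOneSpectrum (𝓞 L), dn K (dn k w) ∉ Sg → dn K (dn k w) ∉ S →
    eo w (sc (ev θ d)) = 0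
  loc : ∀ v ∈ S, H73P2.LCv K v a b d
  sg : ∀ u : HeightOneSpectrum (𝓞 k), dn K u ∈ Sg →
    LC (algebraMap k (u.adicCompletion k)) (algebraMap K k a) (algebraMap K k b) d
  real : ∀ s : k →+* ℝ, LC s (algebraMap K k a) (algebraMap K k b) d

/-- The relaxed Selmer group is trivial. -/
def RelST (Sg S : Finset (HeightOneSpectrum (𝓞 K))) (a b : K) (θ : L) : Prop :=
  ∀ d : Fin 3 → k, RelS K k L Sg S a b θ d → IsSquare (ev θ d)

end Rel

section Val

variable {K N : Type} [Field K] [NumberField K] [Field N] [NumberField N] [Algebra K N]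

/-- Away from a set that contains the primes above two, two is a unit. -/
theorem odd_of {Sg : Finset (HeightOneSpectrum (𝓞 K))}
    (h2 : ∀ v : HeightOneSpectrum (𝓞 K), v.valuation K 2 < 1 → v ∈ Sg)
    {v : HeightOneSpectrum (𝓞 K)} (hv : v ∉ Sg) : v.valuation K 2 = 1 := by
  by_contra h0
  refine hv (h2 v (lt_of_le_of_ne ?_ h0))
  have h3 := v.valuation_le_one (K := K) (2 : 𝓞 K)
  have h4 : algebraMap (𝓞 K) K 2 = 2 := map_ofNat (algebraMap (𝓞 K) K) 2
  rw [← h4]
  exact h3

theorem mem_dn {V : HeightOneSpectrum (𝓞 N)} {x : 𝓞 K} :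
    x ∈ (dn K V).asIdeal ↔ algebraMap (𝓞 K) (𝓞 N) x ∈ V.asIdeal := Iff.rfl

end Val

/-- The completions at conjugate places. -/
theorem conj_mapS {K k k' : Type} [Field K] [NumberField K] [Field k] [NumberField k] [Field k']
    [NumberField k'] [Algebra K k] [Algebra K k'] [Algebra k k'] [IsScalarTower K k k']
    (τ : k' ≃ₐ[k] k') (u : HeightOneSpectrum (𝓞 k')) :
    ∃ u' : HeightOneSpectrum (𝓞 k'), dn K u' = dn K u ∧
      ∃ φ : u'.adicCompletion k' →+* u.adicCompletion k', ∀ x : k',
        φ (algebraMap k' (u'.adicCompletion k') x) = algebraMap k' (u.adicCompletion k') (τ x) := by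
  obtain ⟨u', h1, φ, hφ⟩ := conj_map τ u
  refine ⟨u', ?_, φ, hφ⟩
  apply HeightOneSpectrum.ext
  ext x
  rw [mem_dn, mem_dn]
  have e1 := u'.valuation_lt_one_iff_mem (K := k') (algebraMap (𝓞 K) (𝓞 k') x)
  have e2 := u.valuation_lt_one_iff_mem (K := k') (algebraMap (𝓞 K) (𝓞 k') x)
  have e3 : τ (algebraMap (𝓞 k') k' (algebraMap (𝓞 K) (𝓞 k') x)) =
      algebraMap (𝓞 k') k' (algebraMap (𝓞 K) (𝓞 k') x) := by
    have e4 : algebraMap (𝓞 k') k' (algebraMap (𝓞 K) (𝓞 k') x) =
        algebraMap K k' (algebraMap (𝓞 K) K x) := rfl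
    rw [e4, IsScalarTower.algebraMap_apply K k k', τ.commutes]
  rw [← e1, ← e2, ← h1, e3]

/-- The local conditions above `Sg` for the conjugate. -/
theorem sg_conj {K k k' : Type} [Field K] [NumberField K] [Field k] [NumberField k] [Field k']
    [NumberField k'] [Algebra K k] [Algebra K k'] [Algebra k k'] [IsScalarTower K k k']
    (τ : k' ≃ₐ[k] k') {Sg : Finset (HeightOneSpectrum (𝓞 K))} {a b : k} {d : Fin 3 → k'}
    (h : ∀ u : HeightOneSpectrum (𝓞 k'), dn K u ∈ Sg →
      LC (algebraMap k' (u.adicCompletion k')) (algebraMap k k' a) (algebraMap k k' b) d)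
    (u : HeightOneSpectrum (𝓞 k')) (hu : dn K u ∈ Sg) :
    LC (algebraMap k' (u.adicCompletion k')) (algebraMap k k' a) (algebraMap k k' b)
      (fun i => τ (d i)) := by
  obtain ⟨u', h1, φ, hφ⟩ := conj_mapS (K := K) τ u
  have h3 := LC_map (j := (algebraMap k' (u.adicCompletion k')).comp (τ : k' →+* k')) φ
    (fun x => hφ x) (h u' (by rw [h1]; exact hu))
  unfold LC at h3 ⊢
  simp only [RingHom.comp_apply, RingHom.coe_coe, τ.commutes] at h3
  exact h3

/-- As `H73P2.exists_map`, with the prime below. -/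
theorem exists_mapS {K M : Type} [Field K] [NumberField K] [Field M] [NumberField M] [Algebra K M]
    (v : HeightOneSpectrum (𝓞 K)) (j : M →+* v.adicCompletion K)
    (hj : ∀ x : K, j (algebraMap K M x) = algebraMap K (v.adicCompletion K) x) :
    ∃ (u : HeightOneSpectrum (𝓞 M)) (φ : u.adicCompletion M →+* v.adicCompletion K),
      dn K u = v ∧ ∀ x : M, φ (algebraMap M (u.adicCompletion M) x) = j x := by
  refine ⟨Cm_pl v j hj, Pool.Agent.H10.adicLift (Cm_pl v j hj) j
    (Pool.Agent.H10.continuous_fromVal (Cm_pl v j hj) j (Cm_nhds v j hj)), ?_,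
    fun x => Pool.Agent.H10.adicLift_algebraMap (Cm_pl v j hj) _ _ x⟩
  apply HeightOneSpectrum.ext
  ext x
  rw [mem_dn]
  change algebraMap (𝓞 K) (𝓞 M) x ∈ Cm_id v j hj ↔ _
  rw [Cm_mem]
  have e1 : algebraMap (𝓞 M) M (algebraMap (𝓞 K) (𝓞 M) x) = algebraMap K M (algebraMap (𝓞 K) K x) :=
    rfl
  rw [e1, Cm_val v j hj]
  exact v.valuation_lt_one_iff_mem (K := K) x

end H73ZO
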