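import Pool.Agent.H36.PP.Fl
import Pool.Agent.H36.PP.Dnp
import Pool.Agent.H36.PP.Axp
import Pool.Agent.H36.MT.Df

/-! Lower bound for the family `FamS` (`S` a finite set which contains the primes above two) in a residue
class and with totally positive `A` (for MP_78d38b, ZeroOneLaw; modification of `Pool/Agent/H30/CY/Fl.lean`). -/

set_option autoImplicit false
set_option linter.unusedSectionVars false

open NumberField IsDedekindDomain H76PP H36PP H36MT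

namespace H73ZO

section FamIn

variable {K : Type} [Field K] [NumberField K]

theorem famS_of_in {S : Finset (HeightOneSpectrum (𝓞 K))}
    (hSv : ∀ v : HeightOneSpectrum (𝓞 K), (2 : 𝓞 K) ∈ v.asIdeal → v ∈ S) {e : ℕ}
    {q₀ : HeightOneSpectrum (𝓞 K)} (h6 : (6 : 𝓞 K) ∉ q₀.asIdeal)
    {T : Finset (HeightOneSpectrum (𝓞 K))} (hT : ∀ v ∈ T, v ≠ q₀ ∧ (6 : 𝓞 K) ∉ v.asIdeal)
    {m : Ideal (𝓞 K)} {A₀ B₀ : 𝓞 K}
    (hmS : ∀ v ∈ S, m ≤ v.asIdeal ^ e ∧ dsc A₀ B₀ ∉ v.asIdeal ^ e)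
    (hm : ∀ v : HeightOneSpectrum (𝓞 K), v ∉ S → m ≤ v.asIdeal → dsc A₀ B₀ ∉ v.asIdeal)
    (hr : ∃ v : HeightOneSpectrum (𝓞 K), m ≤ v.asIdeal ∧ A₀ ∉ v.asIdeal)
    {M : ℕ} {X : ℝ} {p : 𝓞 K × 𝓞 K} (hp : p ∈ Bx K X) (hq : p ∈ Pq q₀) (hPt : ∀ v ∈ T, p ∈ Pt v)
    (hA : p.1 - A₀ ∈ m) (hB : p.2 - B₀ ∈ m)
    (hP6 : ∀ v : HeightOneSpectrum (𝓞 K), (6 : 𝓞 K) ∈ v.asIdeal → ¬ m ≤ v.asIdeal → p ∈ P6 v)
    (ho : ∀ v : HeightOneSpectrum (𝓞 K), (6 : 𝓞 K) ∉ v.asIdeal → v ≠ q₀ → v ∉ T →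
      ¬ m ≤ v.asIdeal → Nv v ≤ M → p ∈ Po v)
    (ht : p ∉ Tail K M X) : FamS S e q₀ T p.1 p.2 := by
  have hone : ∀ v : HeightOneSpectrum (𝓞 K), (1 : 𝓞 K) ∉ v.asIdeal := fun v h =>
    v.isPrime.ne_top ((Ideal.eq_top_iff_one _).2 h)
  have m1 : ∀ (v : HeightOneSpectrum (𝓞 K)) (x : 𝓞 K), x - 1 ∈ v.asIdeal → x ∉ v.asIdeal := by
    intro v x h1 h2
    apply hone v
    have h3 := sub_mem h2 h1
    rwa [sub_sub_cancel] at h3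
  have m4 : ∀ (I : Ideal (𝓞 K)) (x y : 𝓞 K), x - y ∈ I → y ∉ I → x ∉ I := by
    intro I x y h1 h2 h3
    apply h2
    have h4 := sub_mem h3 h1
    rwa [sub_sub_cancel] at h4
  have hdm : dsc p.1 p.2 - dsc A₀ B₀ ∈ m := by
    have e : dsc p.1 p.2 - dsc A₀ B₀ =
        (p.1 - A₀) * (4 * (p.1 ^ 2 + p.1 * A₀ + A₀ ^ 2)) + (p.2 - B₀) * (27 * (p.2 + B₀)) := by
      unfold dsc
      ring
    rw [e]
    exact add_mem (m.mul_mem_right _ hA) (m.mul_mem_right _ hB)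
  have h3of : ∀ v : HeightOneSpectrum (𝓞 K), v ∉ S → (6 : 𝓞 K) ∈ v.asIdeal →
      (3 : 𝓞 K) ∈ v.asIdeal := by
    intro v hvS hv6
    have h7 : (2 : 𝓞 K) * 3 ∈ v.asIdeal := by
      rw [show (2 : 𝓞 K) * 3 = 6 by norm_num]
      exact hv6
    exact (v.isPrime.mem_or_mem h7).resolve_left fun h => hvS (hSv v h)
  have hunit : ∀ v : HeightOneSpectrum (𝓞 K), v ∉ S → (6 : 𝓞 K) ∈ v.asIdeal →
      dsc p.1 p.2 ∉ v.asIdeal := by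
    intro v hvS hv6
    by_cases hmv : m ≤ v.asIdeal
    · exact m4 _ _ _ (hmv hdm) (hm v hvS hmv)
    · obtain ⟨g1, g2⟩ := hP6 v hv6 hmv
      have h2 : (2 : 𝓞 K) ∉ v.asIdeal := fun h => hvS (hSv v h)
      have h3 := h3of v hvS hv6
      intro h
      have h8 : p.1 ^ 3 * 4 ∈ v.asIdeal := by
        have e : p.1 ^ 3 * 4 = dsc p.1 p.2 - 3 * (9 * p.2 ^ 2) := by
          unfold dsc
          ring
        rw [e]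
        exact sub_mem h (v.asIdeal.mul_mem_right _ h3)
      rcases v.isPrime.mem_or_mem h8 with h9 | h9
      · exact m1 v _ g1 (v.isPrime.mem_of_pow_mem 3 h9)
      · have h10 : (2 : 𝓞 K) ^ 2 ∈ v.asIdeal := by
          rw [show (2 : 𝓞 K) ^ 2 = 4 by norm_num]
          exact h9
        exact h2 (v.isPrime.mem_of_pow_mem 2 h10)
  have hne : p.1 ≠ 0 := by
    obtain ⟨v, hv, hv'⟩ := hr
    intro h0
    apply m4 _ _ _ (hv hA) hv'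
    rw [h0]
    exact v.asIdeal.zero_mem
  have hd0 : dsc p.1 p.2 ≠ 0 := by
    intro h0
    have h1 := dsc_q h6 hq
    rw [h0] at h1
    exact h1 q₀.asIdeal.zero_mem
  refine ⟨hq, hPt, fun v hv => ?_, fun v hv => ?_⟩
  · by_cases hv6 : (6 : 𝓞 K) ∈ v.asIdeal
    · exact fun h => hunit v hv hv6 (Ideal.pow_le_self two_ne_zero h)
    by_cases hvq : v = q₀
    · rw [hvq]
      exact fun h => dsc_q h6 hq (Ideal.pow_le_self two_ne_zero h)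
    by_cases hvT : v ∈ T
    · exact fun h => dsc_t hv6 (hPt v hvT) (Ideal.pow_le_self two_ne_zero h)
    by_cases hmv : m ≤ v.asIdeal
    · exact fun h => m4 _ _ _ (hmv hdm) (hm v hv hmv) (Ideal.pow_le_self two_ne_zero h)
    by_cases hvM : Nv v ≤ M
    · exact ho v hv6 hvq hvT hmv hvM
    · exact fun h => ht ⟨hp, hne, hd0, v, hv6, not_le.1 hvM, h⟩
  · obtain ⟨h1, h2⟩ := hmS v hv
    exact m4 _ _ _ (h1 hdm) h2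

end FamIn

variable (K : Type) [Field K] [NumberField K]

private theorem Fl_cop {v w : HeightOneSpectrum (𝓞 K)} (h : v ≠ w) (a b : ℕ) :
    IsCoprime (v.asIdeal ^ a) (w.asIdeal ^ b) := by
  apply IsCoprime.pow
  rw [Ideal.isCoprime_iff_sup_eq]
  exact Ideal.IsMaximal.coprime_of_ne v.isMaximal w.isMaximal fun h' => h (HeightOneSpectrum.ext h')

private theorem Fl_cop1 {v w : HeightOneSpectrum (𝓞 K)} (h : v ≠ w) :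
    IsCoprime v.asIdeal w.asIdeal := by
  have h1 := Fl_cop K h 1 1
  rwa [pow_one, pow_one] at h1

private theorem Fl_cop2 {v w : HeightOneSpectrum (𝓞 K)} (h : v ≠ w) :
    IsCoprime v.asIdeal (w.asIdeal ^ 2) := by
  have h1 := Fl_cop K h 1 2
  rwa [pow_one] at h1

private theorem Fl_copm {m : Ideal (𝓞 K)} {v : HeightOneSpectrum (𝓞 K)} (h : ¬ m ≤ v.asIdeal) :
    IsCoprime v.asIdeal m := by
  rw [Ideal.isCoprime_iff_sup_eq]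
  by_contra h1
  have h2 := v.isMaximal.eq_of_le h1 le_sup_left
  apply h
  rw [h2]
  exact le_sup_right

private theorem Fl_copm2 {m : Ideal (𝓞 K)} {v : HeightOneSpectrum (𝓞 K)} (h : ¬ m ≤ v.asIdeal) :
    IsCoprime (v.asIdeal ^ 2) m := (Fl_copm K h).pow_left

private theorem Fl_pos (v : HeightOneSpectrum (𝓞 K)) : (0 : ℝ) < (Nv v : ℝ) := by
  have h := Sm_pos v
  exact_mod_cast Nat.pos_of_ne_zero h

theorem famS_lower_in {S : Finset (HeightOneSpectrum (𝓞 K))}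
    (hSv : ∀ v : HeightOneSpectrum (𝓞 K), (2 : 𝓞 K) ∈ v.asIdeal → v ∈ S) {e : ℕ}
    (q₀ : HeightOneSpectrum (𝓞 K)) (h6 : (6 : 𝓞 K) ∉ q₀.asIdeal)
    {m : Ideal (𝓞 K)} (hm0 : m ≠ ⊥) (hmq : ¬ m ≤ q₀.asIdeal) {A₀ B₀ : 𝓞 K}
    (hmS : ∀ v ∈ S, m ≤ v.asIdeal ^ e ∧ dsc A₀ B₀ ∉ v.asIdeal ^ e)
    (hm : ∀ v : HeightOneSpectrum (𝓞 K), v ∉ S → m ≤ v.asIdeal → dsc A₀ B₀ ∉ v.asIdeal)
    (hr : ∃ v : HeightOneSpectrum (𝓞 K), m ≤ v.asIdeal ∧ A₀ ∉ v.asIdeal) :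
    ∃ c : ℝ, 0 < c ∧ ∀ T : Finset (HeightOneSpectrum (𝓞 K)),
      (∀ v ∈ T, v ≠ q₀ ∧ (6 : 𝓞 K) ∉ v.asIdeal ∧ ¬ m ≤ v.asIdeal) → ∃ X₀ : ℝ, ∀ X : ℝ, X₀ ≤ X →
        c * (∏ v ∈ T, (1 / 2 * (1 - 1 / (Nv v : ℝ)))) * X ^ (5 * Module.finrank ℚ K) ≤
          ({p : 𝓞 K × 𝓞 K | p ∈ Bx K X ∧ FamS S e q₀ T p.1 p.2 ∧ p.1 - A₀ ∈ m ∧ p.2 - B₀ ∈ m ∧
            ∀ s : K →+* ℝ, 0 < s (p.1 : K)}.ncard : ℝ) := by
  classical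
  obtain ⟨C, hC1, hU⟩ := coset_upper K
  obtain ⟨c₁, hc₁, hL⟩ := coset_lower K
  obtain ⟨c₀, hc₀, hP⟩ := prod_lower K
  obtain ⟨c₂, hc₂⟩ : ∃ c₂ : ℝ, c₂ = c₁ ^ 2 / 4 ^ Module.finrank ℚ K := ⟨_, rfl⟩
  have hc₂p : 0 < c₂ := by
    rw [hc₂]
    positivity
  have hF6fin : {v : HeightOneSpectrum (𝓞 K) | (6 : 𝓞 K) ∈ v.asIdeal ∧ ¬ m ≤ v.asIdeal}.Finite :=
    (six_fin K).subset fun v hv => hv.1
  obtain ⟨F6, hF6⟩ : ∃ F6 : Finset (HeightOneSpectrum (𝓞 K)), ∀ v, v ∈ F6 ↔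
      ((6 : 𝓞 K) ∈ v.asIdeal ∧ ¬ m ≤ v.asIdeal) :=
    ⟨hF6fin.toFinset, fun v => hF6fin.mem_toFinset⟩
  obtain ⟨d1, hd1⟩ : ∃ d1 : ℝ, d1 = 1 / (Nv q₀ : ℝ) ^ 2 := ⟨_, rfl⟩
  obtain ⟨d3, hd3⟩ : ∃ d3 : ℝ, d3 = ∏ v ∈ F6, (1 / (Nv v : ℝ) ^ 2) := ⟨_, rfl⟩
  obtain ⟨d5, hd5⟩ : ∃ d5 : ℝ, d5 = 1 / (Ideal.absNorm m : ℝ) ^ 2 := ⟨_, rfl⟩
  have hd1p : 0 < d1 := by
    rw [hd1]
    exact div_pos one_pos (pow_pos (Fl_pos K q₀) 2)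
  have hd3p : 0 < d3 := by
    rw [hd3]
    exact Finset.prod_pos fun v _ => div_pos one_pos (pow_pos (Fl_pos K v) 2)
  have hd5p : 0 < d5 := by
    rw [hd5]
    have h1 : Ideal.absNorm m ≠ 0 := fun h => hm0 (Ideal.absNorm_eq_zero_iff.1 h)
    have h2 : (0 : ℝ) < (Ideal.absNorm m : ℝ) := by exact_mod_cast Nat.pos_of_ne_zero h1
    positivity
  refine ⟨c₂ * (d1 * d3 * c₀ * d5) / 2, by positivity, fun T hT => ?_⟩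
  have hT' : ∀ v ∈ T, v ≠ q₀ ∧ (6 : 𝓞 K) ∉ v.asIdeal := fun v hv => ⟨(hT v hv).1, (hT v hv).2.1⟩
  obtain ⟨d2, hd2⟩ : ∃ d2 : ℝ, d2 = ∏ v ∈ T, (1 / 2 * (1 - 1 / (Nv v : ℝ))) := ⟨_, rfl⟩
  rw [← hd2]
  have hT5 : ∀ v ∈ T, 0 < 1 / 2 * (1 - 1 / (Nv v : ℝ)) := by
    intro v hv
    have h1 : (5 : ℝ) ≤ (Nv v : ℝ) := by exact_mod_cast five_le K (hT' v hv).2
    have h2 : 1 / (Nv v : ℝ) < 1 := by
      rw [div_lt_one (by linarith)]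
      linarith
    linarith
  have hd2p : 0 < d2 := by
    rw [hd2]
    exact Finset.prod_pos hT5
  obtain ⟨c, hc⟩ : ∃ c, c = c₂ * (d1 * d3 * c₀ * d5) / 2 := ⟨_, rfl⟩
  rw [← hc]
  have hcp : 0 < c := by
    rw [hc]
    positivity
  obtain ⟨M, X₁, hM⟩ := tail_bound K (zero_le_one.trans hC1) hU (mul_pos hcp hd2p)
  have hfin : {v : HeightOneSpectrum (𝓞 K) | (6 : 𝓞 K) ∉ v.asIdeal ∧ v ≠ q₀ ∧ v ∉ T ∧
      ¬ m ≤ v.asIdeal ∧ Nv v ≤ M}.Finite := by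
    refine (nv_finite K (M : ℝ)).subset ?_
    rintro v ⟨-, -, -, -, h⟩
    show ((Nv v : ℕ) : ℝ) ≤ (M : ℝ)
    exact_mod_cast h
  obtain ⟨FM, hFM⟩ : ∃ FM : Finset (HeightOneSpectrum (𝓞 K)), ∀ v, v ∈ FM ↔
      ((6 : 𝓞 K) ∉ v.asIdeal ∧ v ≠ q₀ ∧ v ∉ T ∧ ¬ m ≤ v.asIdeal ∧ Nv v ≤ M) :=
    ⟨hfin.toFinset, fun v => hfin.mem_toFinset⟩
  obtain ⟨d4, hd4⟩ : ∃ d4 : ℝ, d4 = ∏ v ∈ FM, (1 - 3 / (Nv v : ℝ) ^ 2) := ⟨_, rfl⟩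
  have hM5 : ∀ v ∈ FM, 0 ≤ 1 - 3 / (Nv v : ℝ) ^ 2 := by
    intro v hv
    have h1 : (5 : ℝ) ≤ (Nv v : ℝ) := by exact_mod_cast five_le K ((hFM v).1 hv).1
    have h2 : (25 : ℝ) ≤ (Nv v : ℝ) ^ 2 := by nlinarith
    have h3 : 3 / (Nv v : ℝ) ^ 2 ≤ 1 := by
      rw [div_le_one (by linarith)]
      linarith
    linarith
  have hd4c : c₀ ≤ d4 := by
    rw [hd4]
    exact hP FM fun v hv => ((hFM v).1 hv).1
  have D1 := dens_q q₀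
  rw [← hd1] at D1
  have D2 := dens_prod T (fun v => v.asIdeal) Pt (fun v => 1 / 2 * (1 - 1 / (Nv v : ℝ)))
    (fun v _ => v.ne_bot) (fun v _ w _ h => Fl_cop1 K h) (fun v hv => (hT5 v hv).le)
    (fun v hv => dens_t (hT' v hv).2)
  rw [← hd2] at D2
  have D3 := dens_prod F6 (fun v => v.asIdeal) P6 (fun v => 1 / (Nv v : ℝ) ^ 2)
    (fun v _ => v.ne_bot) (fun v _ w _ h => Fl_cop1 K h)
    (fun v _ => (div_pos one_pos (pow_pos (Fl_pos K v) 2)).le) (fun v _ => dens_6 v)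
  rw [← hd3] at D3
  have D4 := dens_prod FM (fun v => v.asIdeal ^ 2) Po (fun v => 1 - 3 / (Nv v : ℝ) ^ 2)
    (fun v _ => pow_ne_zero 2 v.ne_bot) (fun v _ w _ h => Fl_cop K h 2 2) hM5
    (fun v hv => dens_o ((hFM v).1 hv).1)
  rw [← hd4] at D4
  have D5 : Dens m {p : 𝓞 K × 𝓞 K | p.1 - A₀ ∈ m ∧ p.2 - B₀ ∈ m} d5 := by
    rw [hd5]
    refine Dv_one hm0 ?_ ⟨(A₀, B₀), ?_⟩
    · rintro p p' hpp ⟨h1, h2⟩
      have h3 := (Dn_rs m p p').1 hpp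
      constructor
      · have e := sub_mem h1 h3.1
        rwa [sub_sub_sub_cancel_left] at e
      · have e := sub_mem h2 h3.2
        rwa [sub_sub_sub_cancel_left] at e
    · constructor
      · show A₀ - A₀ ∈ m
        rw [sub_self]
        exact m.zero_mem
      · show B₀ - B₀ ∈ m
        rw [sub_self]
        exact m.zero_mem
  have b2 : (∏ v ∈ T, v.asIdeal) ≠ (⊥ : Ideal (𝓞 K)) :=
    Finset.prod_ne_zero_iff.2 fun v _ => v.ne_bot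
  have b3 : (∏ v ∈ F6, v.asIdeal) ≠ (⊥ : Ideal (𝓞 K)) :=
    Finset.prod_ne_zero_iff.2 fun v _ => v.ne_bot
  have b4 : (∏ v ∈ FM, v.asIdeal ^ 2) ≠ (⊥ : Ideal (𝓞 K)) :=
    Finset.prod_ne_zero_iff.2 fun v _ => pow_ne_zero 2 v.ne_bot
  have n6 : ∀ v ∈ F6, v ≠ q₀ := by
    rintro v hv rfl
    exact h6 ((hF6 _).1 hv).1
  have n7 : ∀ v ∈ F6, ∀ t ∈ T, t ≠ v := by
    rintro v hv t ht rfl
    exact (hT' _ ht).2 ((hF6 _).1 hv).1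
  have n8 : ∀ v ∈ FM, ∀ t ∈ T, t ≠ v := by
    rintro v hv t ht rfl
    exact ((hFM _).1 hv).2.2.1 ht
  have n9 : ∀ v ∈ FM, ∀ t ∈ F6, t ≠ v := by
    rintro v hv t ht rfl
    exact ((hFM _).1 hv).1 ((hF6 _).1 ht).1
  have D12 := dens_mul q₀.ne_bot b2 (IsCoprime.prod_right fun v hv =>
    Fl_cop1 K (hT' v hv).1.symm) hd1p.le hd2p.le D1 D2
  have b12 : q₀.asIdeal * (∏ v ∈ T, v.asIdeal) ≠ (⊥ : Ideal (𝓞 K)) := mul_ne_zero q₀.ne_bot b2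
  have D123 := dens_mul b12 b3 (IsCoprime.prod_right fun v hv => IsCoprime.mul_left
    (Fl_cop1 K (n6 v hv).symm) (IsCoprime.prod_left fun t ht => Fl_cop1 K (n7 v hv t ht)))
    (mul_pos hd1p hd2p).le hd3p.le D12 D3
  have b123 : q₀.asIdeal * (∏ v ∈ T, v.asIdeal) * (∏ v ∈ F6, v.asIdeal) ≠ (⊥ : Ideal (𝓞 K)) :=
    mul_ne_zero b12 b3
  have D1234 := dens_mul b123 b4 (IsCoprime.prod_right fun v hv => IsCoprime.mul_left (IsCoprime.mul_left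
    (Fl_cop2 K ((hFM v).1 hv).2.1.symm)
    (IsCoprime.prod_left fun t ht => Fl_cop2 K (n8 v hv t ht)))
    (IsCoprime.prod_left fun t ht => Fl_cop2 K (n9 v hv t ht)))
    (mul_pos (mul_pos hd1p hd2p) hd3p).le (hc₀.le.trans hd4c) D123 D4
  have b1234 : q₀.asIdeal * (∏ v ∈ T, v.asIdeal) * (∏ v ∈ F6, v.asIdeal) *
      (∏ v ∈ FM, v.asIdeal ^ 2) ≠ (⊥ : Ideal (𝓞 K)) := mul_ne_zero b123 b4
  have D := dens_mul b1234 hm0 (IsCoprime.mul_left (IsCoprime.mul_left (IsCoprime.mul_left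
    (Fl_copm K hmq) (IsCoprime.prod_left fun t ht => Fl_copm K (hT t ht).2.2))
    (IsCoprime.prod_left fun t ht => Fl_copm K ((hF6 _).1 ht).2))
    (IsCoprime.prod_left fun t ht => Fl_copm2 K ((hFM _).1 ht).2.2.2.1))
    (mul_nonneg (mul_pos (mul_pos hd1p hd2p) hd3p).le (hc₀.le.trans hd4c)) hd5p.le D1234 D5
  obtain ⟨X₂, hX₂⟩ := dens_lower_pos hc₁.le hL (Bx_finite K) (mul_ne_zero b1234 hm0) D
  rw [← hc₂] at hX₂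
  refine ⟨max (max X₁ X₂) 0, fun X hX => ?_⟩
  have hX1 : X₁ ≤ X := ((le_max_left _ _).trans (le_max_left _ _)).trans hX
  have hX2 : X₂ ≤ X := ((le_max_right _ _).trans (le_max_left _ _)).trans hX
  have hX0 : 0 ≤ X := (le_max_right _ _).trans hX
  have e1 := hX₂ X hX2
  have e2 := hM X hX1
  obtain ⟨S1, hS1⟩ : ∃ S1 : Set (𝓞 K × 𝓞 K), S1 = {p : 𝓞 K × 𝓞 K | p ∈ Bx K X ∧
      FamS S e q₀ T p.1 p.2 ∧ p.1 - A₀ ∈ m ∧ p.2 - B₀ ∈ m ∧ ∀ s : K →+* ℝ, 0 < s (p.1 : K)} := ⟨_, rfl⟩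
  obtain ⟨S2, hS2⟩ : ∃ S2 : Set (𝓞 K × 𝓞 K), S2 = {p : 𝓞 K × 𝓞 K | (p ∈ Bx K X ∧
      ∀ s : K →+* ℝ, 0 < s (p.1 : K)) ∧ p ∈ Pq q₀ ∩ {p | ∀ v ∈ T, p ∈ Pt v} ∩
      {p | ∀ v ∈ F6, p ∈ P6 v} ∩ {p | ∀ v ∈ FM, p ∈ Po v} ∩
      {p : 𝓞 K × 𝓞 K | p.1 - A₀ ∈ m ∧ p.2 - B₀ ∈ m}} := ⟨_, rfl⟩
  rw [← hS1]
  rw [← hS2] at e1
  have hS : S1.Finite := by
    rw [hS1]
    exact (Bx_finite K X).subset fun p hp => hp.1
  have hTl : (Tail K M X).Finite := (Bx_finite K X).subset fun p hp => hp.1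
  have hsub : S2 ⊆ S1 ∪ Tail K M X := by
    rw [hS1, hS2]
    rintro p ⟨⟨hp, hpos⟩, ⟨⟨⟨hp1, hp2⟩, hp3⟩, hp4⟩, hp5, hp6⟩
    by_cases ht : p ∈ Tail K M X
    · exact Or.inr ht
    · exact Or.inl ⟨hp, famS_of_in hSv h6 hT' hmS hm hr hp hp1 hp2 hp5 hp6
        (fun v hv hv' => hp3 v ((hF6 v).2 ⟨hv, hv'⟩))
        (fun v a1 a2 a3 a4 a5 => hp4 v ((hFM v).2 ⟨a1, a2, a3, a4, a5⟩)) ht, hp5, hp6, hpos⟩
  have e3 := (Set.ncard_le_ncard hsub (hS.union hTl)).trans (Set.ncard_union_le _ _)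
  have e4 : (S2.ncard : ℝ) ≤ (S1.ncard : ℝ) + ((Tail K M X).ncard : ℝ) := by
    exact_mod_cast e3
  obtain ⟨Z, hZ⟩ : ∃ Z, Z = X ^ (5 * Module.finrank ℚ K) := ⟨_, rfl⟩
  have hZ0 : 0 ≤ Z := by
    rw [hZ]
    exact pow_nonneg hX0 _
  rw [← hZ] at e1 e2 ⊢
  have e5 : c₂ * (d1 * d2 * d3 * c₀ * d5) * Z ≤ c₂ * (d1 * d2 * d3 * d4 * d5) * Z := by
    refine mul_le_mul_of_nonneg_right (mul_le_mul_of_nonneg_left ?_ (by positivity)) hZ0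
    exact mul_le_mul_of_nonneg_right (mul_le_mul_of_nonneg_left hd4c (by positivity)) hd5p.le
  have e6 : c₂ * (d1 * d2 * d3 * c₀ * d5) * Z = 2 * (c * d2 * Z) := by
    rw [hc]
    ring
  linarith

end H73ZO
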