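import Pool.Agent.H73.ZO.Mn
import Pool.Agent.H73.ZO.Rc
import Pool.Agent.H30.CY.Gen

/-!
Assembly for the project MP_78d38b (ZeroOneLaw): the residue classes at the primes of a finite set `Sg` which contains
the primes above two are given in advance, and the fields `N` satisfy the descent property `DescAt` at the primes of
`Sg` (no row, proved; modification of `Pool/Agent/H30/CY/Gen.lean`).
-/

set_option autoImplicit false
set_option linter.unusedSectionVars false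
open scoped Classical

open WithZero NumberField IsDedekindDomain H38RT H76PP H36MT
open H38T1 (SC sc scu rep eo la si Pri OddP tp unif)

namespace H73ZO

/-- `N / K` is a Galois extension whose degree is a power of two, every ramified prime lies above `Sg`, the primes of
`T` split completely, and the local conditions above `Sg` descend in the quadratic extensions between `K` and `N`. -/
structure AdmZ (K : Type) (N : Type) [Field K] [NumberField K] [Field N] [NumberField N]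
    [Algebra K N] (Sg T : Finset (HeightOneSpectrum (𝓞 K))) (a b : K) : Prop where
  gal : IsGalois K N
  two : ∃ r : ℕ, Module.finrank K N = 2 ^ r
  ram : ∀ V : HeightOneSpectrum (𝓞 N), H73P2.Ram K V → dn K V ∈ Sg
  spl : ∀ v ∈ T, ∃ ι : N →+* v.adicCompletion K, ∀ x : K,
      ι (algebraMap K N x) = algebraMap K (v.adicCompletion K) x
  desc : ∀ v ∈ Sg, H36CY.DescAt K N v a b

/-- The residue class. -/
theorem exists_clsZ {K : Type} [Field K] [NumberField K] (S : Finset (HeightOneSpectrum (𝓞 K)))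
    (e : HeightOneSpectrum (𝓞 K) → ℕ) (Av Bv : HeightOneSpectrum (𝓞 K) → 𝓞 K)
    (hcl : ∀ v ∈ S, dsc (Av v) (Bv v) ∉ v.asIdeal ^ e v) :
    ∃ (m : Ideal (𝓞 K)) (E : ℕ) (A₀ B₀ : 𝓞 K), m ≠ ⊥ ∧ 1 ≤ E ∧
      (∀ v ∈ S, m ≤ v.asIdeal ^ E ∧ dsc A₀ B₀ ∉ v.asIdeal ^ E) ∧
      (∀ v : HeightOneSpectrum (𝓞 K), v ∉ S → ¬ m ≤ v.asIdeal) ∧
      (∀ A B : 𝓞 K, A - A₀ ∈ m → B - B₀ ∈ m →
        ∀ v ∈ S, A - Av v ∈ v.asIdeal ^ e v ∧ B - Bv v ∈ v.asIdeal ^ e v) := by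
  obtain ⟨E, hE⟩ : ∃ E : ℕ, E = 1 + ∑ v ∈ S, e v := ⟨_, rfl⟩
  have hEe : ∀ v ∈ S, e v ≤ E := by
    intro v hv
    have h1 : e v ≤ ∑ v ∈ S, e v := Finset.single_le_sum (fun _ _ => Nat.zero_le _) hv
    omega
  obtain ⟨A₀, hA₀⟩ := IsDedekindDomain.exists_forall_sub_mem_ideal (s := S)
    (fun v : HeightOneSpectrum (𝓞 K) => v.asIdeal) (fun _ => E) (fun v _ => v.prime)
    (fun v _ w _ hne h => hne (HeightOneSpectrum.ext h)) (fun v => Av v.1)
  obtain ⟨B₀, hB₀⟩ := IsDedekindDomain.exists_forall_sub_mem_ideal (s := S)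
    (fun v : HeightOneSpectrum (𝓞 K) => v.asIdeal) (fun _ => E) (fun v _ => v.prime)
    (fun v _ w _ hne h => hne (HeightOneSpectrum.ext h)) (fun v => Bv v.1)
  have hAS : ∀ v ∈ S, A₀ - Av v ∈ v.asIdeal ^ E := fun v hv => hA₀ v hv
  have hBS : ∀ v ∈ S, B₀ - Bv v ∈ v.asIdeal ^ E := fun v hv => hB₀ v hv
  obtain ⟨m, hm⟩ : ∃ m : Ideal (𝓞 K), m = ∏ v ∈ S, v.asIdeal ^ E := ⟨_, rfl⟩
  have hle : ∀ v ∈ S, m ≤ v.asIdeal ^ E := fun v hv => by
    rw [hm]
    exact Ideal.le_of_dvd (Finset.dvd_prod_of_mem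
      (fun w : HeightOneSpectrum (𝓞 K) => w.asIdeal ^ E) hv)
  refine ⟨m, E, A₀, B₀, ?_, by omega, ?_, ?_, ?_⟩
  · rw [hm, ← Ideal.zero_eq_bot, Finset.prod_ne_zero_iff]
    intro w _
    exact pow_ne_zero _ (by rw [Ideal.zero_eq_bot]; exact w.ne_bot)
  · intro v hv
    refine ⟨hle v hv, fun h => hcl v hv ?_⟩
    have h1 : dsc (Av v) (Bv v) = dsc A₀ B₀ - ((A₀ - Av v) *
        (4 * (A₀ ^ 2 + A₀ * Av v + Av v ^ 2)) + (B₀ - Bv v) * (27 * (B₀ + Bv v))) := by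
      unfold dsc
      ring
    have h2 : dsc (Av v) (Bv v) ∈ v.asIdeal ^ E := by
      rw [h1]
      exact sub_mem h (add_mem (Ideal.mul_mem_right _ _ (hAS v hv))
        (Ideal.mul_mem_right _ _ (hBS v hv)))
    exact Ideal.pow_le_pow_right (hEe v hv) h2
  · intro v hvS hmv
    apply hvS
    rw [hm] at hmv
    obtain ⟨w, hw, hwv⟩ := (Ideal.IsPrime.prod_le v.isPrime).1 hmv
    have h1 : w.asIdeal = v.asIdeal :=
      w.isMaximal.eq_of_le v.isPrime.ne_top (Ideal.IsPrime.le_of_pow_le hwv)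
    have h2 : w = v := HeightOneSpectrum.ext h1
    rwa [← h2]
  · intro A B hA hB v hv
    have h1 : v.asIdeal ^ E ≤ v.asIdeal ^ e v := Ideal.pow_le_pow_right (hEe v hv)
    constructor
    · have h2 := h1 (add_mem (hle v hv hA) (hAS v hv))
      rwa [sub_add_sub_cancel] at h2
    · have h2 := h1 (add_mem (hle v hv hB) (hBS v hv))
      rwa [sub_add_sub_cancel] at h2

/-- The general theorem. -/
theorem main_genZ (K : Type) [Field K] [NumberField K] (Sg : Finset (HeightOneSpectrum (𝓞 K)))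
    (hSg : ∀ v : HeightOneSpectrum (𝓞 K), (2 : 𝓞 K) ∈ v.asIdeal → v ∈ Sg)
    {Z : Set (HeightOneSpectrum (𝓞 K))}
    (hZ : Z.Infinite) (e : HeightOneSpectrum (𝓞 K) → ℕ) (Av Bv : HeightOneSpectrum (𝓞 K) → 𝓞 K)
    (hcl : ∀ v ∈ Sg, dsc (Av v) (Bv v) ∉ v.asIdeal ^ e v) :
    ∃ (T : Finset (HeightOneSpectrum (𝓞 K))) (c X₀ : ℝ),
      (∀ v ∈ T, v ∈ Z ∧ v ∉ Sg) ∧ 0 < c ∧ ∀ X : ℝ, X₀ ≤ X → ∃ G : Finset (𝓞 K × 𝓞 K),
        (∀ p ∈ G, p ∈ Bx K X ∧ 4 * p.1 ^ 3 + 27 * p.2 ^ 2 ≠ 0 ∧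
          (∀ v ∈ Sg, p.1 - Av v ∈ v.asIdeal ^ e v ∧ p.2 - Bv v ∈ v.asIdeal ^ e v) ∧
          ∀ (N : Type) [Field N] [NumberField N] [Algebra K N],
            AdmZ K N Sg T (p.1 : K) (p.2 : K) → ∀ (M : Type) [Field M] [NumberField M]
            [Algebra K M] [Algebra M N] [IsScalarTower K M N],
            (∀ x : M, x ^ 3 + algebraMap K M p.1 * x + algebraMap K M p.2 ≠ 0) ∧
            Finite (⟨0, 0, 0, algebraMap K M p.1, algebraMap K M p.2⟩ :
              WeierstrassCurve M).toAffine.Point ∧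
            Pool.Agent.H10.Sha2Trivial M
              (⟨0, 0, 0, algebraMap K M p.1, algebraMap K M p.2⟩ : WeierstrassCurve M)) ∧
        (∀ p ∈ G, ∀ q ∈ G, p.1 ^ 3 * q.2 ^ 2 = q.1 ^ 3 * p.2 ^ 2 → p = q) ∧
        c * ((Bx K X).ncard : ℝ) ≤ (G.card : ℝ) := by
  obtain ⟨m, E, A₀, B₀, hm0, hE, hmS, hm, hclass⟩ := exists_clsZ Sg e Av Bv hcl
  obtain ⟨T, c, X₀, hT, hc, h⟩ := main_B3 K hSg hE hZ hm0 hmS
    (fun v hv hmv => absurd hmv (hm v hv))
  refine ⟨T, c, X₀, fun v hv => ⟨(hT v hv).1, (hT v hv).2.1⟩, hc, fun X hX => ?_⟩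
  obtain ⟨G, hG, hj, hcard⟩ := h X hX
  refine ⟨G, fun p hp => ?_, hj, hcard⟩
  obtain ⟨hB, h1, h2, hpos, hrel⟩ := hG p hp
  refine ⟨hB, hrel.ne, hclass p.1 p.2 h1 h2, ?_⟩
  intro N _ _ _ hN M _ _ _ _ _
  have _ := hN.gal
  obtain ⟨r, hr⟩ := hN.two
  have hd : 4 * (p.1 : K) ^ 3 + 27 * (p.2 : K) ^ 2 ≠ 0 := by
    rw [← dsc_coe]
    intro h0
    apply hrel.ne
    apply RingOfIntegers.coe_injective
    rw [map_zero]
    exact h0
  have _ : FiniteDimensional K N := Module.Finite.of_restrictScalars_finite ℚ K N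
  have hroot := H73P2.noroot (K := K) (N := N) (k := M) hr hrel.irr
  refine ⟨hroot, ?_⟩
  obtain ⟨L, _, _, _, θ, hL⟩ := H24PD.exists_cub (K := M) hroot
  refine H24PD.descent hL (selS_mid (K := K) (N := N) ordSub hr (Sg := Sg) (S := T)
    (fun v hv => hSg v (H30CY.two_mem_iff.1 hv)) hd ?_ hN.spl ?_ ?_ hN.desc ?_ M L θ hL)
  · intro v hv hv2
    exact hrel.nice v fun h => (Finset.mem_union.1 h).elim hv hv2
  · intro s
    left
    rw [map_add, map_mul, map_mul, map_pow, map_pow, map_ofNat, map_ofNat]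
    have h1 := hpos s
    positivity
  · intro V hV _ hR
    exact absurd (hN.ram V hR) hV
  · intro L _ _ _ θ hL
    exact relST_of (hrel.rel L θ hL)

end H73ZO
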