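import Pool.Agent.H73.ZO.Gen
import Pool.Agent.H30.CY.Inf

/-!
Assembly for the project MP_78d38b (ZeroOneLaw): a finite or infinite Galois extension `F / K` given in advance, residue
classes at the primes of a finite set `Sg` given in advance (no row, proved; modification of
`Pool/Agent/H30/CY/Inf.lean`).
-/

set_option autoImplicit false
set_option linter.unusedSectionVars false
open scoped Classical

open WithZero NumberField IsDedekindDomain H38RT H76PP H36MT
open H38T1 (SC sc scu rep eo la si Pri OddP tp unif)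

namespace H73ZO

/-- The theorem for a finite or infinite extension `F / K` with infinitely many completely split primes: `Sg` contains
the primes above two and the ramified primes, and the local data at the primes of `Sg` are given. -/
theorem main_infZ (K F : Type) [Field K] [NumberField K] [Field F] [Algebra K F] [IsGalois K F]
    (hdeg : ∀ (N : IntermediateField K F) [NumberField N], IsGalois K N →
      ∃ r : ℕ, Module.finrank K N = 2 ^ r)
    (Sg : Finset (HeightOneSpectrum (𝓞 K)))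
    (hSg : ∀ v : HeightOneSpectrum (𝓞 K), (2 : 𝓞 K) ∈ v.asIdeal → v ∈ Sg)
    (hram : ∀ (N : IntermediateField K F) [NumberField N] (V : HeightOneSpectrum (𝓞 N)),
      H73P2.Ram K V → dn K V ∈ Sg)
    (hspl : {v : HeightOneSpectrum (𝓞 K) | ∃ ι : F →+* v.adicCompletion K, ∀ x : K,
      ι (algebraMap K F x) = algebraMap K (v.adicCompletion K) x}.Infinite)
    (e : HeightOneSpectrum (𝓞 K) → ℕ) (Av Bv : HeightOneSpectrum (𝓞 K) → 𝓞 K)
    (hloc : ∀ v ∈ Sg, dsc (Av v) (Bv v) ∉ v.asIdeal ^ e v ∧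
      ∃ N₀ : IntermediateField K F, FiniteDimensional K N₀ ∧
        ∀ A B : 𝓞 K, A - Av v ∈ v.asIdeal ^ e v → B - Bv v ∈ v.asIdeal ^ e v →
          ∀ (N : IntermediateField K F) [NumberField N], IsGalois K N → N₀ ≤ N →
            H36CY.DescAt K N v (A : K) (B : K)) :
    ∃ (c X₀ : ℝ), 0 < c ∧ ∀ X : ℝ, X₀ ≤ X → ∃ G : Finset (𝓞 K × 𝓞 K),
      (∀ p ∈ G, p ∈ Bx K X ∧ 4 * p.1 ^ 3 + 27 * p.2 ^ 2 ≠ 0 ∧
        (∀ v ∈ Sg, p.1 - Av v ∈ v.asIdeal ^ e v ∧ p.2 - Bv v ∈ v.asIdeal ^ e v) ∧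
        Finite (⟨0, 0, 0, algebraMap K F p.1, algebraMap K F p.2⟩ :
          WeierstrassCurve F).toAffine.Point ∧
        ∀ (M : IntermediateField K F) [NumberField M],
          (∀ x : M, x ^ 3 + algebraMap K M p.1 * x + algebraMap K M p.2 ≠ 0) ∧
          Finite (⟨0, 0, 0, algebraMap K M p.1, algebraMap K M p.2⟩ :
            WeierstrassCurve M).toAffine.Point ∧
          Pool.Agent.H10.Sha2Trivial M
            (⟨0, 0, 0, algebraMap K M p.1, algebraMap K M p.2⟩ : WeierstrassCurve M)) ∧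
      (∀ p ∈ G, ∀ q ∈ G, p.1 ^ 3 * q.2 ^ 2 = q.1 ^ 3 * p.2 ^ 2 → p = q) ∧
      c * ((Bx K X).ncard : ℝ) ≤ (G.card : ℝ) := by
  have hloc' : ∀ v : HeightOneSpectrum (𝓞 K), ∃ N₀ : IntermediateField K F,
      FiniteDimensional K N₀ ∧ (v ∈ Sg →
        ∀ A B : 𝓞 K, A - Av v ∈ v.asIdeal ^ e v → B - Bv v ∈ v.asIdeal ^ e v →
          ∀ (N : IntermediateField K F) [NumberField N], IsGalois K N → N₀ ≤ N →
            H36CY.DescAt K N v (A : K) (B : K)) := by
    intro v
    by_cases hv : v ∈ Sg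
    · obtain ⟨-, N₀, h1, h2⟩ := hloc v hv
      exact ⟨N₀, h1, fun _ => h2⟩
    · exact ⟨⊥, inferInstance, fun h => absurd h hv⟩
  choose N₀ hN₀ hcl using hloc'
  obtain ⟨T, c, X₀, hT, hc, h⟩ := main_genZ K Sg hSg hspl e Av Bv (fun v hv => (hloc v hv).1)
  refine ⟨c, X₀, hc, fun X hX => ?_⟩
  obtain ⟨G, hG, hj, hcard⟩ := h X hX
  refine ⟨G, fun p hp => ?_, hj, hcard⟩
  obtain ⟨hB, hne, hpc, hall⟩ := hG p hp
  have hM : ∀ (M : IntermediateField K F) [NumberField M],
      (∀ x : M, x ^ 3 + algebraMap K M p.1 * x + algebraMap K M p.2 ≠ 0) ∧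
      Finite (⟨0, 0, 0, algebraMap K M p.1, algebraMap K M p.2⟩ :
        WeierstrassCurve M).toAffine.Point ∧
      Pool.Agent.H10.Sha2Trivial M
        (⟨0, 0, 0, algebraMap K M p.1, algebraMap K M p.2⟩ : WeierstrassCurve M) := by
    intro M _
    obtain ⟨N, _, hNg, hMN, hNi⟩ := H30CY.exists_big M Sg N₀ fun v _ => hN₀ v
    let _ : Algebra M N := (IntermediateField.inclusion hMN).toRingHom.toAlgebra
    have _ : IsScalarTower K M N := IsScalarTower.of_algebraMap_eq fun _ => rfl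
    refine hall N ⟨hNg, hdeg N hNg, fun V hV => hram N V hV, ?_, ?_⟩ M
    · intro v hv
      obtain ⟨ι, hι⟩ := (hT v hv).1
      exact ⟨ι.comp N.val.toRingHom, fun x => hι x⟩
    · intro v hv
      obtain ⟨h1, h2⟩ := hpc v hv
      exact hcl v hv p.1 p.2 h1 h2 N hNg (hNi v hv)
  refine ⟨hB, hne, hpc, ?_, fun M _ => hM M⟩
  obtain ⟨l, l', v, v', ⟨ι, hι⟩, ⟨ι', hι'⟩, hl, hl', hll, hv, hv', hg, hg'⟩ :=
    H30CY.exists_two_in hspl hne
  exact H30CY.fin_any (fun M _ => (hM M).2.1)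
    (H73P2.tors_emb hl hl' hll hv hv' hg hg' ι hι ι' hι')

end H73ZO
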