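import Pool.Agent.H30.CY.Mn
import Pool.Agent.H73.ZO.Fl

/-!
Counting for the project MP_78d38b (ZeroOneLaw): prescribed residue classes at the primes of a finite set `S` which
contains the primes above two, the auxiliary primes inside a given infinite set (modification of
`Pool/Agent/H30/CY/Mn.lean`); no row, proved.
-/

set_option autoImplicit false
set_option linter.unusedSectionVars false
open scoped Classical

open WithZero NumberField IsDedekindDomain H38RT H76PP H36MT H30CY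
open H38T1 (SC sc scu rep eo la si Pri OddP tp unif)

namespace H73ZO

variable {K : Type} [Field K] [NumberField K]

/-- The auxiliary primes inside a given infinite set and the number of pairs in a residue class with
totally positive `A` which are not bad (modification of `H30CY.main_inS`). -/
theorem main_inZ (H : Blocks K) {S : Finset (HeightOneSpectrum (𝓞 K))}
    (hSv : ∀ v : HeightOneSpectrum (𝓞 K), (2 : 𝓞 K) ∈ v.asIdeal → v ∈ S) {e : ℕ} (he : 1 ≤ e)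
    {Z : Set (HeightOneSpectrum (𝓞 K))} (hZ : Z.Infinite)
    {m : Ideal (𝓞 K)} (hm0 : m ≠ ⊥) (hmZ : ∀ v ∈ Z, ¬ m ≤ v.asIdeal ∧ (6 : 𝓞 K) ∉ v.asIdeal)
    {A₀ B₀ : 𝓞 K} (hmS : ∀ v ∈ S, m ≤ v.asIdeal ^ e ∧ dsc A₀ B₀ ∉ v.asIdeal ^ e)
    (hm : ∀ v : HeightOneSpectrum (𝓞 K), v ∉ S → m ≤ v.asIdeal → dsc A₀ B₀ ∉ v.asIdeal)
    (hr : ∃ v : HeightOneSpectrum (𝓞 K), m ≤ v.asIdeal ∧ A₀ ∉ v.asIdeal) :
    ∃ (q₀ : HeightOneSpectrum (𝓞 K))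
    (T : Finset (HeightOneSpectrum (𝓞 K))) (c X₀ : ℝ), q₀ ∈ Z ∧
      (∀ v ∈ T, v ∈ Z ∧ v ≠ q₀) ∧ 0 < c ∧ ∀ X : ℝ, X₀ ≤ X →
        c * X ^ (5 * Module.finrank ℚ K) ≤
          ({p : 𝓞 K × 𝓞 K | p ∈ Bx K X ∧ FamS S e q₀ T p.1 p.2 ∧ (p.1 - A₀ ∈ m ∧ p.2 - B₀ ∈ m ∧
            ∀ s : K →+* ℝ, 0 < s (p.1 : K)) ∧ ¬ BadS S T p.1 p.2}.ncard : ℝ) := by
  obtain ⟨q₀, hq₀⟩ := hZ.nonempty
  have h6 := (hmZ q₀ hq₀).2
  have hinf : (Z \ {q₀}).Infinite := hZ.sdiff (Set.finite_singleton q₀)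
  obtain ⟨C₄, N₀, hC, hbad⟩ := bad_countS K (H36PP.Bx_finite K) S e he
  obtain ⟨c₃, hc₃, hfam⟩ := H73ZO.famS_lower_in K hSv (e := e) q₀ h6 hm0 (hmZ q₀ hq₀).1 hmS hm hr
  -- the number of auxiliary primes
  obtain ⟨k, hk⟩ := exists_pow_lt_of_lt_one (x := c₃ / (2 * C₄)) (y := (0.55 : ℝ))
    (by positivity) (by norm_num)
  obtain ⟨T, hT, hTk⟩ := exists_T hinf (max N₀ 40) k
  have hTZ : ∀ v ∈ T, v ∈ Z ∧ v ≠ q₀ := fun v hv => ⟨(hT v hv).1.1, (hT v hv).1.2⟩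
  have hTS : ∀ v ∈ T, v ∉ S := by
    intro v hv hvS
    exact (hmZ v (hTZ v hv).1).1 ((hmS v hvS).1.trans (Ideal.pow_le_self (by omega)))
  obtain ⟨X₁, h1⟩ := hfam T (fun v hv => ⟨(hTZ v hv).2, (hmZ v (hTZ v hv).1).2,
    (hmZ v (hTZ v hv).1).1⟩)
  obtain ⟨X₂, h2⟩ := hbad q₀ T (fun v hv => ⟨(le_max_left _ _).trans (hT v hv).2,
    (hmZ v (hTZ v hv).1).2, hTS v hv⟩)
  set P : ℝ := ∏ v ∈ T, (1 / 2 * (1 - 1 / (Nv v : ℝ))) with hP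
  have hPpos : 0 < P := by
    refine Finset.prod_pos fun v hv => ?_
    have h3 : 40 ≤ Nv v := (le_max_right _ _).trans (hT v hv).2
    have h4 : (40 : ℝ) ≤ (Nv v : ℝ) := by exact_mod_cast h3
    have h5 : 1 / (Nv v : ℝ) ≤ 1 / 40 := one_div_le_one_div_of_le (by norm_num) h4
    nlinarith
  refine ⟨q₀, T, c₃ * P / 2, max (max X₁ X₂) 0, hq₀, hTZ, by positivity, ?_⟩
  intro X hX
  have hX1 : X₁ ≤ X := (le_max_left _ _).trans ((le_max_left _ _).trans hX)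
  have hX2 : X₂ ≤ X := (le_max_right _ _).trans ((le_max_left _ _).trans hX)
  have hX0 : 0 ≤ X := (le_max_right _ _).trans hX
  have e1 := h1 X hX1
  have e2 := h2 X hX2
  have e3 := prod_ratio_le (T := T) (fun v hv => (le_max_right _ _).trans (hT v hv).2)
  rw [hTk, ← hP] at e3
  have hXp : 0 ≤ X ^ (5 * Module.finrank ℚ K) := by positivity
  have hk' : C₄ * 0.55 ^ k ≤ c₃ / 2 := by
    have h7 : C₄ * 0.55 ^ k ≤ C₄ * (c₃ / (2 * C₄)) := mul_le_mul_of_nonneg_left hk.le hC.le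
    have h8 : C₄ * (c₃ / (2 * C₄)) = c₃ / 2 := by field_simp
    rwa [h8] at h7
  have e4 : C₄ * (∏ v ∈ T, ((1 + 1 / (Nv v : ℝ)) ^ 2 / 4)) * X ^ (5 * Module.finrank ℚ K) ≤
      c₃ / 2 * P * X ^ (5 * Module.finrank ℚ K) := by
    refine mul_le_mul_of_nonneg_right ?_ hXp
    calc C₄ * (∏ v ∈ T, ((1 + 1 / (Nv v : ℝ)) ^ 2 / 4)) ≤ C₄ * (0.55 ^ k * P) :=
          mul_le_mul_of_nonneg_left e3 hC.le
      _ = (C₄ * 0.55 ^ k) * P := by ring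
      _ ≤ c₃ / 2 * P := mul_le_mul_of_nonneg_right hk' hPpos.le
  -- the family is the union of the bad and the good pairs
  have hfin : {p : 𝓞 K × 𝓞 K | p ∈ Bx K X ∧ FamS S e q₀ T p.1 p.2 ∧ (p.1 - A₀ ∈ m ∧ p.2 - B₀ ∈ m ∧
      ∀ s : K →+* ℝ, 0 < s (p.1 : K)) ∧ ¬ BadS S T p.1 p.2}.Finite :=
    (H.fin X).subset fun p hp => hp.1
  have hfinb : {p : 𝓞 K × 𝓞 K | p ∈ Bx K X ∧ FamS S e q₀ T p.1 p.2 ∧ BadS S T p.1 p.2}.Finite :=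
    (H.fin X).subset fun p hp => hp.1
  have e5 : ({p : 𝓞 K × 𝓞 K | p ∈ Bx K X ∧ FamS S e q₀ T p.1 p.2 ∧ p.1 - A₀ ∈ m ∧ p.2 - B₀ ∈ m ∧
        ∀ s : K →+* ℝ, 0 < s (p.1 : K)}.ncard : ℝ) ≤
      ({p : 𝓞 K × 𝓞 K | p ∈ Bx K X ∧ FamS S e q₀ T p.1 p.2 ∧ BadS S T p.1 p.2}.ncard : ℝ) +
      ({p : 𝓞 K × 𝓞 K | p ∈ Bx K X ∧ FamS S e q₀ T p.1 p.2 ∧ (p.1 - A₀ ∈ m ∧ p.2 - B₀ ∈ m ∧
        ∀ s : K →+* ℝ, 0 < s (p.1 : K)) ∧ ¬ BadS S T p.1 p.2}.ncard : ℝ) := by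
    have h9 : {p : 𝓞 K × 𝓞 K | p ∈ Bx K X ∧ FamS S e q₀ T p.1 p.2 ∧ p.1 - A₀ ∈ m ∧ p.2 - B₀ ∈ m ∧
        ∀ s : K →+* ℝ, 0 < s (p.1 : K)} ⊆
        {p : 𝓞 K × 𝓞 K | p ∈ Bx K X ∧ FamS S e q₀ T p.1 p.2 ∧ BadS S T p.1 p.2} ∪
        {p : 𝓞 K × 𝓞 K | p ∈ Bx K X ∧ FamS S e q₀ T p.1 p.2 ∧ (p.1 - A₀ ∈ m ∧ p.2 - B₀ ∈ m ∧
          ∀ s : K →+* ℝ, 0 < s (p.1 : K)) ∧ ¬ BadS S T p.1 p.2} := by
      rintro p ⟨h10, h11, h13⟩
      by_cases h12 : BadS S T p.1 p.2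
      · exact Or.inl ⟨h10, h11, h12⟩
      · exact Or.inr ⟨h10, h11, h13, h12⟩
    have h13 := (Set.ncard_le_ncard h9 (hfinb.union hfin)).trans (Set.ncard_union_le _ _)
    exact_mod_cast h13
  have e6 : c₃ * P * X ^ (5 * Module.finrank ℚ K) =
      c₃ * P / 2 * X ^ (5 * Module.finrank ℚ K) + c₃ / 2 * P * X ^ (5 * Module.finrank ℚ K) := by
    ring
  linarith

/-- The counting theorem, with an auxiliary prime modulo which `A₀` is a unit. -/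
theorem main_B2r (K : Type) [Field K] [NumberField K] {S : Finset (HeightOneSpectrum (𝓞 K))}
    (hSv : ∀ v : HeightOneSpectrum (𝓞 K), (2 : 𝓞 K) ∈ v.asIdeal → v ∈ S) {e : ℕ} (he : 1 ≤ e)
    {Z : Set (HeightOneSpectrum (𝓞 K))} (hZ : Z.Infinite) {m : Ideal (𝓞 K)} (hm0 : m ≠ ⊥)
    {A₀ B₀ : 𝓞 K} (hmS : ∀ v ∈ S, m ≤ v.asIdeal ^ e ∧ dsc A₀ B₀ ∉ v.asIdeal ^ e)
    (hm : ∀ v : HeightOneSpectrum (𝓞 K), v ∉ S → m ≤ v.asIdeal → dsc A₀ B₀ ∉ v.asIdeal)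
    (hr : ∃ v : HeightOneSpectrum (𝓞 K), m ≤ v.asIdeal ∧ A₀ ∉ v.asIdeal) :
    ∃ (T : Finset (HeightOneSpectrum (𝓞 K))) (c X₀ : ℝ),
      (∀ v ∈ T, v ∈ Z ∧ v ∉ S ∧ ¬ m ≤ v.asIdeal) ∧ 0 < c ∧ ∀ X : ℝ, X₀ ≤ X →
        ∃ G : Finset (𝓞 K × 𝓞 K),
          (∀ p ∈ G, p ∈ Bx K X ∧ p.1 - A₀ ∈ m ∧ p.2 - B₀ ∈ m ∧
            (∀ s : K →+* ℝ, 0 < s (p.1 : K)) ∧ RelG K (S ∪ T) p.1 p.2) ∧
          (∀ p ∈ G, ∀ q ∈ G, p.1 ^ 3 * q.2 ^ 2 = q.1 ^ 3 * p.2 ^ 2 → p = q) ∧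
          c * ((Bx K X).ncard : ℝ) ≤ (G.card : ℝ) := by
  have H : Blocks K := blocks_of_HR2 K fun h hd => hr2 h hd
  obtain ⟨m', hm'0, hm't, hm'm, hm'S, -⟩ := exists_mod hm0 S
  obtain ⟨Z', hZ'Z, hZ', hZ'm, hZr⟩ := aux_set_in K hm'0 hZ
  have hmZ : ∀ v ∈ Z', ¬ m ≤ v.asIdeal ∧ (6 : 𝓞 K) ∉ v.asIdeal := fun v hv =>
    ⟨fun h => (hZ'm v hv).1 (hm'm.trans h), (hZ'm v hv).2⟩
  have hS6 : ∀ v ∈ Z', v ∉ S := by
    intro v hv hvS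
    exact (hmZ v hv).1 ((hmS v hvS).1.trans (Ideal.pow_le_self (by omega)))
  have hS2 : ∀ v : HeightOneSpectrum (𝓞 K), v.valuation K 2 < 1 → v ∈ S := by
    intro v hv
    apply hSv
    by_contra h
    have h4 := (v.valuation_eq_one_iff_notMem (K := K) (r := (2 : 𝓞 K))).2 h
    have h5 : v.valuation K (2 : K) = 1 := by
      rw [← h4]
      congr 1
    exact absurd h5 hv.ne
  obtain ⟨q₀, T, c, X₀, hq₀, hT, hc, hmain⟩ := main_inZ H hSv he hZ' hm0 hmZ hmS hm hr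
  obtain ⟨c', X₁, hc', h⟩ := count_genS H (S := S) (e := e) (q₀ := q₀) (T := T) (m' := m')
    (fun J hJ => exists_twistS hm'0 hm't hm'S (hZ'm q₀ hq₀).1 fun p hp =>
      hZr q₀ hq₀ p (hT p (hJ hp)).1 (hT p (hJ hp)).2)
    (fun p => p.1 - A₀ ∈ m ∧ p.2 - B₀ ∈ m ∧ ∀ s : K →+* ℝ, 0 < s (p.1 : K))
    (fun p => p.1 - A₀ ∈ m ∧ p.2 - B₀ ∈ m ∧
            (∀ s : K →+* ℝ, 0 < s (p.1 : K)) ∧ RelG K (S ∪ insert q₀ T) p.1 p.2) hc hmain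
    (by
      intro p hF hP hB
      obtain ⟨J, hJ, hg⟩ := good_S2 hS2
        (fun v hv => ⟨(hT v hv).2, hS6 v (hT v hv).1, (hZ'm v (hT v hv).1).2⟩) hF hB
      refine ⟨J, hJ, fun D hDm hD => ?_⟩
      have hDm' := hm'm hDm
      obtain ⟨h1, h2, h3⟩ := hP
      refine ⟨?_, ?_, ?_, hg D hD _ Finset.subset_union_left ?_ ?_⟩
      · change D ^ 2 * p.1 - A₀ ∈ m
        have e1 : D ^ 2 * p.1 - A₀ = (p.1 - A₀) + (D - 1) * ((D + 1) * p.1) := by ring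
        rw [e1]
        exact m.add_mem h1 (m.mul_mem_right _ hDm')
      · change D ^ 3 * p.2 - B₀ ∈ m
        have e1 : D ^ 3 * p.2 - B₀ = (p.2 - B₀) + (D - 1) * ((D ^ 2 + D + 1) * p.2) := by ring
        rw [e1]
        exact m.add_mem h2 (m.mul_mem_right _ hDm')
      · intro s
        change 0 < s ((D ^ 2 * p.1 : 𝓞 K) : K)
        have e1 : ((D ^ 2 * p.1 : 𝓞 K) : K) = (D : K) ^ 2 * (p.1 : K) := by push_cast; rfl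
        rw [e1, map_mul, map_pow]
        exact mul_pos (pow_pos (hD.pos s) 2) (h3 s)
      · exact (Finset.subset_insert _ _).trans Finset.subset_union_right
      · exact Finset.mem_union_right _ (Finset.mem_insert_self _ _))
  refine ⟨insert q₀ T, c', X₁, fun v hv => ?_, hc', h⟩
  have hv' : v ∈ Z' := by
    rw [Finset.mem_insert] at hv
    rcases hv with h | h
    · rw [h]
      exact hq₀
    · exact (hT v h).1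
  exact ⟨hZ'Z hv', hS6 v hv', (hmZ v hv').1⟩

/-- The counting theorem: residue classes at the primes of `S` and auxiliary primes given in advance. -/
theorem main_B3 (K : Type) [Field K] [NumberField K] {S : Finset (HeightOneSpectrum (𝓞 K))}
    (hSv : ∀ v : HeightOneSpectrum (𝓞 K), (2 : 𝓞 K) ∈ v.asIdeal → v ∈ S) {e : ℕ} (he : 1 ≤ e)
    {Z : Set (HeightOneSpectrum (𝓞 K))} (hZ : Z.Infinite) {m : Ideal (𝓞 K)} (hm0 : m ≠ ⊥)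
    {A₀ B₀ : 𝓞 K} (hmS : ∀ v ∈ S, m ≤ v.asIdeal ^ e ∧ dsc A₀ B₀ ∉ v.asIdeal ^ e)
    (hm : ∀ v : HeightOneSpectrum (𝓞 K), v ∉ S → m ≤ v.asIdeal → dsc A₀ B₀ ∉ v.asIdeal) :
    ∃ (T : Finset (HeightOneSpectrum (𝓞 K))) (c X₀ : ℝ),
      (∀ v ∈ T, v ∈ Z ∧ v ∉ S ∧ ¬ m ≤ v.asIdeal) ∧ 0 < c ∧ ∀ X : ℝ, X₀ ≤ X →
        ∃ G : Finset (𝓞 K × 𝓞 K),
          (∀ p ∈ G, p ∈ Bx K X ∧ p.1 - A₀ ∈ m ∧ p.2 - B₀ ∈ m ∧
            (∀ s : K →+* ℝ, 0 < s (p.1 : K)) ∧ RelG K (S ∪ T) p.1 p.2) ∧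
          (∀ p ∈ G, ∀ q ∈ G, p.1 ^ 3 * q.2 ^ 2 = q.1 ^ 3 * p.2 ^ 2 → p = q) ∧
          c * ((Bx K X).ncard : ℝ) ≤ (G.card : ℝ) := by
  obtain ⟨Z', -, hZ', hZ'm, -⟩ := aux_set_in K hm0 hZ
  obtain ⟨r, hr⟩ := hZ'.nonempty
  obtain ⟨hrm, hr6⟩ := hZ'm r hr
  have hcop : IsCoprime m r.asIdeal := by
    rw [Ideal.isCoprime_iff_sup_eq]
    by_contra h1
    have h2 := r.isMaximal.eq_of_le h1 le_sup_right
    apply hrm
    rw [h2]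
    exact le_sup_left
  obtain ⟨a, ha, b, hb, hab⟩ := Ideal.isCoprime_iff_exists.1 hcop
  obtain ⟨A₁, hA₁⟩ : ∃ A₁ : 𝓞 K, A₁ = A₀ * b + a := ⟨_, rfl⟩
  obtain ⟨B₁, hB₁⟩ : ∃ B₁ : 𝓞 K, B₁ = B₀ * b := ⟨_, rfl⟩
  have e1 : A₁ - A₀ ∈ m := by
    have e : A₁ - A₀ = a * (1 - A₀) := by
      rw [hA₁]
      linear_combination A₀ * hab
    rw [e]
    exact m.mul_mem_right _ ha
  have e2 : B₁ - B₀ ∈ m := by
    have e : B₁ - B₀ = a * (-B₀) := by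
      rw [hB₁]
      linear_combination B₀ * hab
    rw [e]
    exact m.mul_mem_right _ ha
  have e3 : A₁ - 1 ∈ r.asIdeal := by
    have e : A₁ - 1 = b * (A₀ - 1) := by
      rw [hA₁]
      linear_combination hab
    rw [e]
    exact r.asIdeal.mul_mem_right _ hb
  have e4 : B₁ ∈ r.asIdeal := by
    rw [hB₁]
    exact r.asIdeal.mul_mem_left _ hb
  have e5 : dsc A₁ B₁ - dsc A₀ B₀ ∈ m := by
    have e : dsc A₁ B₁ - dsc A₀ B₀ =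
        (A₁ - A₀) * (4 * (A₁ ^ 2 + A₁ * A₀ + A₀ ^ 2)) + (B₁ - B₀) * (27 * (B₁ + B₀)) := by
      unfold dsc
      ring
    rw [e]
    exact add_mem (m.mul_mem_right _ e1) (m.mul_mem_right _ e2)
  have m4 : ∀ (I : Ideal (𝓞 K)) (x y : 𝓞 K), x - y ∈ I → y ∉ I → x ∉ I := by
    intro I x y h1 h2 h3
    apply h2
    have h4 := sub_mem h3 h1
    rwa [sub_sub_cancel] at h4
  have h1r : (1 : 𝓞 K) ∉ r.asIdeal := fun h => r.isPrime.ne_top ((Ideal.eq_top_iff_one _).2 h)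
  have h2r : (2 : 𝓞 K) ∉ r.asIdeal := by
    intro h
    apply hr6
    rw [show (6 : 𝓞 K) = 3 * 2 by norm_num]
    exact r.asIdeal.mul_mem_left _ h
  have h4r : dsc A₁ B₁ ∉ r.asIdeal := by
    refine m4 _ _ 4 ?_ ?_
    · have e : dsc A₁ B₁ - 4 = (A₁ - 1) * (4 * (A₁ ^ 2 + A₁ + 1)) + B₁ * (27 * B₁) := by
        unfold dsc
        ring
      rw [e]
      exact add_mem (r.asIdeal.mul_mem_right _ e3) (r.asIdeal.mul_mem_right _ e4)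
    · intro h
      have h5 : (2 : 𝓞 K) ^ 2 ∈ r.asIdeal := by
        rw [show (2 : 𝓞 K) ^ 2 = 4 by norm_num]
        exact h
      exact h2r (r.isPrime.mem_of_pow_mem 2 h5)
  have hle : m * r.asIdeal ≤ m := Ideal.mul_le_left
  have hne : m * r.asIdeal ≠ ⊥ := mul_ne_zero hm0 r.ne_bot
  obtain ⟨T, c, X₀, hT, hc, h⟩ := main_B2r K (S := S) hSv he hZ (m := m * r.asIdeal) hne
    (A₀ := A₁) (B₀ := B₁) (fun v hv => ⟨hle.trans (hmS v hv).1,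
      m4 _ _ _ ((hmS v hv).1 e5) (hmS v hv).2⟩)
    (by
      intro v hvS hv
      rcases (Ideal.IsPrime.mul_le v.isPrime).1 hv with h1 | h1
      · exact m4 _ _ _ (h1 e5) (hm v hvS h1)
      · have h2 : r = v := HeightOneSpectrum.ext (r.isMaximal.eq_of_le v.isPrime.ne_top h1)
        rw [← h2]
        exact h4r)
    ⟨r, Ideal.mul_le_right, m4 _ _ _ e3 h1r⟩
  refine ⟨T, c, X₀, fun v hv => ⟨(hT v hv).1, (hT v hv).2.1, fun hmv =>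
    (hT v hv).2.2 (hle.trans hmv)⟩, hc, fun X hX => ?_⟩
  obtain ⟨G, hG, hj, hcard⟩ := h X hX
  refine ⟨G, fun p hp => ?_, hj, hcard⟩
  obtain ⟨g1, g2, g3, g4, g5⟩ := hG p hp
  refine ⟨g1, ?_, ?_, g4, g5⟩
  · have e := add_mem (hle g2) e1
    rwa [sub_add_sub_cancel] at e
  · have e := add_mem (hle g3) e2
    rwa [sub_add_sub_cancel] at e

end H73ZO
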